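import Pool.Agent.T6.H35.FE.Chn

set_option autoImplicit false

/-!
# Generalised Fermat equations with S-unit coefficients: chains which are periodic modulo primes

`Sol S A B`: the integers `A`, `B`, `A + B` are nonzero, `A` and `B` are coprime, and there are
exponents `p, q, r` with `1 / p + 1 / q + 1 / r < 1` such that `A` is `p`-full, `B` is `q`-full and
`A + B` is `r`-full outside of `S`.  This holds in particular for the terms `A = a x ^ p`,
`B = b y ^ q`, `A + B = c z ^ r` of all `S`-solutions (second part of the theorem); all exponents are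
allowed, and different pairs `(A, B)` may have different exponents.

Let `Q` be a set of primes and `δ > 0` such that `∑_{p ∈ Q, p ≤ n} log p ≥ δ n` for `n ≥ n₀`, and
`c = (δ / 16) ^ 3`.  We consider chains `(A 0, B 0), …, (A T, B T)` of terms of `S`-solutions with
`|A n|, |B n| ≤ exp (c n + C₀)`, such that the points `(A (n + p) : B (n + p))` and `(A n : B n)` of
the projective line are congruent modulo `p`, for all `p ∈ Q`, `p₀ ≤ p`, `n + p ≤ T`.  (The values of
polynomials, in particular, have the last property.)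

There is a number `T₀`, which depends only on `Q`, `δ`, `n₀`, `p₀`, `C₀` and a bound `s` for the NUMBER
of primes of `S`, such that all these chains with `T ≥ T₀` are constant up to signs.

Idea: by the structure theorem for long chains of points of projective space (H54, PM), they are given
by the values of a finite number of polynomial curves, which depend only on `Q`, `δ`, `n₀`, `p₀`, `C₀`.
For each curve which is not constant, and all sets `S` with at most `s` elements, one of the first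
`N` values is not a pair of terms of an `S`-solution (local arguments, Mason's theorem, and a
compactness argument for the uniformity in `S`).
-/

namespace Pool.Agent.Results.MP_be1fae_nt.LongChains

open Pool.Agent.T6.H35.FE
open Pool.Agent.T6.H54.PM (wt)

theorem result :
    (∀ Q : Set ℕ, (∀ p ∈ Q, p.Prime) → ∀ δ : ℝ, 0 < δ →
      ∀ n₀ : ℕ, (∀ n : ℕ, n₀ ≤ n → δ * n ≤ wt Q n) → ∀ (p₀ : ℕ) (C₀ : ℝ) (s : ℕ),
      ∃ T₀ : ℕ, ∀ S : Set ℕ, S.Finite → S.ncard ≤ s → ∀ T ≥ T₀, ∀ A B : ℕ → ℤ,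
        (∀ n ≤ T, Sol S (A n) (B n)) →
        (∀ p ∈ Q, p₀ ≤ p → ∀ n, n + p ≤ T → (p : ℤ) ∣ A (n + p) * B n - A n * B (n + p)) →
        (∀ n ≤ T, |(A n : ℝ)| ≤ Real.exp ((δ / 16) ^ 3 * n + C₀) ∧
          |(B n : ℝ)| ≤ Real.exp ((δ / 16) ^ 3 * n + C₀)) →
        ∀ n ≤ T, (A n = A 0 ∧ B n = B 0) ∨ (A n = -A 0 ∧ B n = -B 0)) ∧
    -- the terms of `S`-solutions
    (∀ (S : Set ℕ) (a b c x y z : ℤ) (p q r : ℕ), 0 < p → 0 < q → 0 < r →
      (1 : ℚ) / p + 1 / q + 1 / r < 1 → (∀ ℓ : ℕ, ℓ.Prime → (ℓ : ℤ) ∣ a * b * c → ℓ ∈ S) →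
      a ≠ 0 → b ≠ 0 → c ≠ 0 → x ≠ 0 → y ≠ 0 → z ≠ 0 →
      Int.gcd ((Int.gcd (a * x ^ p) (b * y ^ q) : ℕ) : ℤ) (c * z ^ r) = 1 →
      a * x ^ p + b * y ^ q = c * z ^ r → Sol S (a * x ^ p) (b * y ^ q)) := by
  refine ⟨?_, ?_⟩
  · intro Q hQ δ hδ n₀ hwt p₀ C₀ s
    obtain ⟨T₀, h⟩ := chains hQ hδ hwt p₀ C₀ s
    exact ⟨T₀, fun S hS hSc T hT A B h1 h2 h3 => h S hS hSc T hT A B ⟨h1, h2, h3⟩⟩
  · intro S a b c x y z p q r hp hq hr hpqr hS ha hb hc hx hy hz hgcd h
    exact sol_of_terms hp hq hr hpqr hS ha hb hc hx hy hz hgcd h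

end Pool.Agent.Results.MP_be1fae_nt.LongChains
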