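import Pool.Agent.W232.FC.Fin2
import Pool.Agent.T6.H23.TB.NatGen

/-!
# Generalised Fermat equations with S-unit coefficients and random additive bases

Let `A` be a random set of natural numbers: the events `n ∈ A` are independent and `n ≥ 1` is chosen with probability
`n ^ (-α)`, `α > 0` arbitrarily small. Almost surely, for every finite set `S` of primes only finitely many `S`-solutions
of `a x ^ p + b y ^ q = c z ^ r` with a large exponent have a term of absolute value in `A` which is at least a given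
power of the largest term. For `α < 1 / 2` almost every `A` is an asymptotic additive basis of order two.
-/

set_option autoImplicit false

namespace Pool.Agent.Results.MP_be1fae_nt.RandomBases

open MeasureTheory ProbabilityTheory

/-- `a x ^ p + b y ^ q = c z ^ r` in nonzero integers with exponents at least `2` (for positive exponents
`1 / p + 1 / q + 1 / r < 1` implies this; neither this inequality nor a coprimality condition is imposed) -/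
def Solution (a b c x y z : ℤ) (p q r : ℕ) : Prop :=
  2 ≤ p ∧ 2 ≤ q ∧ 2 ≤ r ∧ a ≠ 0 ∧ b ≠ 0 ∧ c ≠ 0 ∧ x ≠ 0 ∧ y ≠ 0 ∧ z ≠ 0 ∧ a * x ^ p + b * y ^ q = c * z ^ r

/-- the largest absolute value of the members of a triple -/
def size (t : ℤ × ℤ × ℤ) : ℕ := max t.1.natAbs (max t.2.1.natAbs t.2.2.natAbs)

/-- the product of the primes dividing `a` -/
def rad (a : ℤ) : ℕ := ∏ p ∈ a.natAbs.primeFactors, p

/-- the triples of terms `(a x ^ p, b y ^ q, c z ^ r)` of the solutions with coefficients composed of primes of `S` and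
with an exponent at least `R` -/
def STerms (S : Finset ℕ) (R : ℕ) : Set (ℤ × ℤ × ℤ) :=
  {t | ∃ (a b c x y z : ℤ) (p q r : ℕ), Solution a b c x y z p q r ∧
    (∀ ℓ : ℕ, ℓ.Prime → (ℓ : ℤ) ∣ a * b * c → ℓ ∈ S) ∧ (R ≤ p ∨ R ≤ q ∨ R ≤ r) ∧
    t = (a * x ^ p, b * y ^ q, c * z ^ r)}

/-- the triples of terms `(a x ^ p, b y ^ q, c z ^ r)`, the largest of absolute value `H`, of the solutions with
`rad (a), rad (b), rad (c) ≤ H ^ δ` and with a base at most `H ^ δ` -/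
def Terms (δ : ℝ) : Set (ℤ × ℤ × ℤ) :=
  {t | ∃ (a b c x y z : ℤ) (p q r : ℕ), Solution a b c x y z p q r ∧ t = (a * x ^ p, b * y ^ q, c * z ^ r) ∧
    (rad a : ℝ) ≤ (size t : ℝ) ^ δ ∧ (rad b : ℝ) ≤ (size t : ℝ) ^ δ ∧ (rad c : ℝ) ≤ (size t : ℝ) ^ δ ∧
    ((x.natAbs : ℝ) ≤ (size t : ℝ) ^ δ ∨ (y.natAbs : ℝ) ≤ (size t : ℝ) ^ δ ∨ (z.natAbs : ℝ) ≤ (size t : ℝ) ^ δ)}

/-- the absolute value of a member of `t` is in `A` and at least `H ^ κ`, `H` the largest of these values -/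
def Hit (A : Set ℕ) (κ : ℝ) (t : ℤ × ℤ × ℤ) : Prop :=
  ∃ m ∈ A, (m = t.1.natAbs ∨ m = t.2.1.natAbs ∨ m = t.2.2.natAbs) ∧ (size t : ℝ) ^ κ ≤ m

/-- the random sets of natural numbers of density `n ^ (-α)`: `R n` is the event that `n` is chosen -/
structure IsRandomSet (α : ℝ) {Ω : Type} [MeasurableSpace Ω] (μ : Measure Ω) (R : ℕ → Set Ω) : Prop where
  prob : IsProbabilityMeasure μ
  meas : ∀ n, MeasurableSet (R n)
  indep : iIndepSet R μ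
  density : ∀ n, n ≠ 0 → μ (R n) = ENNReal.ofReal ((n : ℝ) ^ (-α))

/-- the `a < n / 2` such that `n = a + (n - a)` is a sum of two coprime elements of `A`, both at least `n ^ κ` -/
def Reps (A : Set ℕ) (κ : ℝ) (n : ℕ) : Set ℕ :=
  {a | 2 * a < n ∧ a ∈ A ∧ n - a ∈ A ∧ Nat.Coprime a (n - a) ∧ (n : ℝ) ^ κ ≤ a}

theorem size_pos {t : ℤ × ℤ × ℤ} (h : t.1 ≠ 0) : 1 ≤ size t :=
  le_trans (Int.natAbs_pos.2 h) (le_max_left _ _)

theorem terms_one_le {δ : ℝ} {t : ℤ × ℤ × ℤ} (h : t ∈ Terms δ) : 1 ≤ size t := by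
  obtain ⟨a, b, c, x, y, z, p, q, r, ⟨-, -, -, ha, -, -, hx, -⟩, rfl, -⟩ := h
  exact size_pos (mul_ne_zero ha (pow_ne_zero _ hx))

theorem ball_finite (N : ℕ) : {t : ℤ × ℤ × ℤ | size t ≤ N}.Finite := by
  refine Set.Finite.subset ((Set.finite_Icc (-(N : ℤ)) N).prod
    ((Set.finite_Icc (-(N : ℤ)) N).prod (Set.finite_Icc (-(N : ℤ)) N))) ?_
  rintro ⟨x, y, z⟩ h
  simp only [size, Set.mem_ofPred_eq, max_le_iff] at h
  simp only [Set.mem_prod, Set.mem_Icc]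
  omega

theorem count (ε : ℝ) (hε : 0 < ε) : ∃ δ : ℝ, 0 < δ ∧ ∃ C : ℝ, ∀ X : ℝ, 1 ≤ X →
    {t | t ∈ Terms δ ∧ (size t : ℝ) ≤ X}.Finite ∧
      ({t | t ∈ Terms δ ∧ (size t : ℝ) ≤ X}.ncard : ℝ) ≤ C * X ^ ε := by
  obtain ⟨δ, hδ, X₀, h⟩ := Pool.Agent.W232.FC.sparseC ε hε
  refine ⟨δ, hδ, 1 + ({t : ℤ × ℤ × ℤ | size t ≤ X₀}.ncard : ℝ), fun X hX => ?_⟩
  have hX0 : 0 ≤ X := by linarith
  have hXε : 1 ≤ X ^ ε := Real.one_le_rpow hX hε.le
  have hn0 : (0 : ℝ) ≤ ({t : ℤ × ℤ × ℤ | size t ≤ X₀}.ncard : ℝ) := Nat.cast_nonneg _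
  have hfl : ∀ t : ℤ × ℤ × ℤ, (size t : ℝ) ≤ X → size t ≤ ⌊X⌋₊ := fun t ht => Nat.le_floor ht
  rcases le_total X₀ ⌊X⌋₊ with hc | hc
  · have hsub : {t | t ∈ Terms δ ∧ (size t : ℝ) ≤ X} ⊆ Pool.Agent.W232.FC.SolC ⌊X⌋₊ ((⌊X⌋₊ : ℝ) ^ δ) := by
      rintro t ⟨⟨a, b, c, x, y, z, p, q, r, ⟨hp, hq, hr, ha, hb, hc, hx, hy, hz, he⟩, ht, h1, h2, h3, h4⟩, hs⟩
      have hs' := hfl t hs
      have hle : (size t : ℝ) ^ δ ≤ (⌊X⌋₊ : ℝ) ^ δ :=
        Real.rpow_le_rpow (Nat.cast_nonneg _) (by exact_mod_cast hs') hδ.le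
      have hm : t.1.natAbs ≤ ⌊X⌋₊ ∧ t.2.1.natAbs ≤ ⌊X⌋₊ ∧ t.2.2.natAbs ≤ ⌊X⌋₊ := by
        unfold size at hs'
        simpa [max_le_iff] using hs'
      refine ⟨by rw [ht]; exact he, hm.1, hm.2.1, hm.2.2, a, b, c, x, y, z, p, q, r, ha, hb, hc, hx, hy, hz,
        hp, hq, hr, ht, h1.trans hle, h2.trans hle, h3.trans hle, ?_⟩
      rcases h4 with h4 | h4 | h4
      · exact Or.inl (h4.trans hle)
      · exact Or.inr (Or.inl (h4.trans hle))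
      · exact Or.inr (Or.inr (h4.trans hle))
    have hfin := Pool.Agent.W232.FC.SolC_finite ⌊X⌋₊ ((⌊X⌋₊ : ℝ) ^ δ)
    refine ⟨hfin.subset hsub, ?_⟩
    have e1 : ({t | t ∈ Terms δ ∧ (size t : ℝ) ≤ X}.ncard : ℝ) ≤ (⌊X⌋₊ : ℝ) ^ ε :=
      le_trans (by exact_mod_cast Set.ncard_le_ncard hsub hfin) (h _ hc)
    have e2 : (⌊X⌋₊ : ℝ) ^ ε ≤ X ^ ε :=
      Real.rpow_le_rpow (Nat.cast_nonneg _) (Nat.floor_le hX0) hε.le
    nlinarith
  · have hsub : {t | t ∈ Terms δ ∧ (size t : ℝ) ≤ X} ⊆ {t : ℤ × ℤ × ℤ | size t ≤ X₀} :=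
      fun t ht => (hfl t ht.2).trans hc
    refine ⟨(ball_finite X₀).subset hsub, ?_⟩
    have e1 : ({t | t ∈ Terms δ ∧ (size t : ℝ) ≤ X}.ncard : ℝ) ≤ ({t : ℤ × ℤ × ℤ | size t ≤ X₀}.ncard : ℝ) := by
      exact_mod_cast Set.ncard_le_ncard hsub (ball_finite X₀)
    nlinarith

/-- an `S`-solution with an exponent at least `1 / δ` is in `Terms δ`, if it is large enough -/
theorem sterms_sub (S : Finset ℕ) (R : ℕ) (δ : ℝ) (hδ : 0 < δ) (hR : 1 / δ ≤ R) :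
    ∃ N : ℕ, STerms S R ⊆ Terms δ ∪ {t | size t ≤ N} := by
  set P : ℕ := ∏ p ∈ S.filter Nat.Prime, p with hP
  refine ⟨⌈(P : ℝ) ^ (1 / δ)⌉₊, ?_⟩
  rintro t ⟨a, b, c, x, y, z, p, q, r, hsol, hS, hex, rfl⟩
  set t : ℤ × ℤ × ℤ := (a * x ^ p, b * y ^ q, c * z ^ r) with ht
  by_cases hN : size t ≤ ⌈(P : ℝ) ^ (1 / δ)⌉₊
  · exact Or.inr hN
  left
  obtain ⟨hp, hq, hr, ha, hb, hc, hx, hy, hz, he⟩ := hsol
  push Not at hN
  have hsz : (1 : ℝ) ≤ size t := by exact_mod_cast size_pos (t := t) (mul_ne_zero ha (pow_ne_zero _ hx))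
  have hPle : (P : ℝ) ≤ (size t : ℝ) ^ δ := by
    have h1 : (P : ℝ) ^ (1 / δ) ≤ size t := (Nat.le_ceil _).trans (by exact_mod_cast hN.le)
    have h2 := Real.rpow_le_rpow (by positivity) h1 hδ.le
    rwa [← Real.rpow_mul (Nat.cast_nonneg _), one_div, inv_mul_cancel₀ hδ.ne', Real.rpow_one] at h2
  have hrad : ∀ u : ℤ, u ≠ 0 → u ∣ a * b * c → (rad u : ℝ) ≤ (size t : ℝ) ^ δ := by
    intro u hu hd
    refine le_trans ?_ hPle
    have hdv : rad u ∣ P := by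
      unfold rad
      refine Finset.prod_dvd_prod_of_subset _ _ _ ?_
      intro ℓ hℓ
      rw [Finset.mem_filter]
      exact ⟨hS ℓ (Nat.prime_of_mem_primeFactors hℓ)
        ((Int.natCast_dvd.2 (Nat.dvd_of_mem_primeFactors hℓ)).trans hd), Nat.prime_of_mem_primeFactors hℓ⟩
    have hpos : 0 < P := Finset.prod_pos fun p hp => (Finset.mem_filter.1 hp).2.pos
    exact_mod_cast Nat.le_of_dvd hpos hdv
  have hbase : ∀ (u v : ℤ) (n : ℕ), u ≠ 0 → v ≠ 0 → R ≤ n → (u * v ^ n).natAbs ≤ size t →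
      (v.natAbs : ℝ) ≤ (size t : ℝ) ^ δ := by
    intro u v n hu hv hn hle
    have hv1 : (1 : ℝ) ≤ v.natAbs := by exact_mod_cast Int.natAbs_pos.2 hv
    have h1 : ((v.natAbs : ℝ)) ^ R ≤ size t := by
      have h2 : v.natAbs ^ R ≤ (u * v ^ n).natAbs := by
        rw [Int.natAbs_mul, Int.natAbs_pow]
        calc v.natAbs ^ R ≤ v.natAbs ^ n := Nat.pow_le_pow_right (Int.natAbs_pos.2 hv) hn
          _ = 1 * v.natAbs ^ n := (one_mul _).symm
          _ ≤ u.natAbs * v.natAbs ^ n := Nat.mul_le_mul_right _ (Int.natAbs_pos.2 hu)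
      exact_mod_cast h2.trans hle
    have h3 : (v.natAbs : ℝ) ^ (1 / δ) ≤ size t := by
      refine le_trans ?_ h1
      rw [← Real.rpow_natCast]
      exact Real.rpow_le_rpow_of_exponent_le hv1 hR
    have h4 := Real.rpow_le_rpow (by positivity) h3 hδ.le
    rwa [← Real.rpow_mul (Nat.cast_nonneg _), one_div, inv_mul_cancel₀ hδ.ne', Real.rpow_one] at h4
  have hm1 : (a * x ^ p).natAbs ≤ size t := le_max_left _ _
  have hm2 : (b * y ^ q).natAbs ≤ size t := (le_max_left _ _).trans (le_max_right _ _)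
  have hm3 : (c * z ^ r).natAbs ≤ size t := (le_max_right _ _).trans (le_max_right _ _)
  refine ⟨a, b, c, x, y, z, p, q, r, ⟨hp, hq, hr, ha, hb, hc, hx, hy, hz, he⟩, ht, ?_, ?_, ?_, ?_⟩
  · exact hrad a ha ⟨b * c, by ring⟩
  · exact hrad b hb ⟨a * c, by ring⟩
  · exact hrad c hc ⟨a * b, by ring⟩
  · rcases hex with h | h | h
    · exact Or.inl (hbase a x p ha hx h hm1)
    · exact Or.inr (Or.inl (hbase b y q hb hy h hm2))
    · exact Or.inr (Or.inr (hbase c z r hc hz h hm3))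

/-- the Borel-Cantelli step -/
theorem hit_finite {α : ℝ} {Ω : Type} [MeasurableSpace Ω] {μ : Measure Ω} {R : ℕ → Set Ω}
    (h : Pool.Agent.T6.H23.TB.NN.IsRandomSet α μ R) (hα : 0 < α) (κ δ C : ℝ) (hκ : 0 < κ)
    (hC : ∀ X : ℝ, 1 ≤ X → {t | t ∈ Terms δ ∧ (size t : ℝ) ≤ X}.Finite ∧
      ({t | t ∈ Terms δ ∧ (size t : ℝ) ≤ X}.ncard : ℝ) ≤ C * X ^ (α * κ / 2)) :
    ∀ᵐ ω ∂μ, {t | t ∈ Terms δ ∧ Hit {m | ω ∈ R m} κ t}.Finite := by
  classical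
  have key := Pool.Agent.T6.H23.TB.NN.gen_one h hα (Terms δ) (fun t => (size t : ℝ) ^ κ)
    (fun t => {t.1.natAbs, t.2.1.natAbs, t.2.2.natAbs}) C (α / 2) (by linarith)
    (fun t ht => Real.one_le_rpow (by exact_mod_cast terms_one_le ht) hκ.le)
    (fun t _ => Finset.card_le_three) (fun X hX => by
      have hX0 : 0 < X := by linarith
      have e1 : {t | t ∈ Terms δ ∧ (size t : ℝ) ^ κ ≤ X} = {t | t ∈ Terms δ ∧ (size t : ℝ) ≤ X ^ (1 / κ)} := by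
        ext t
        constructor
        · rintro ⟨h1, h2⟩
          refine ⟨h1, ?_⟩
          have h3 := Real.rpow_le_rpow (by positivity) h2 (z := 1 / κ) (by positivity)
          rwa [← Real.rpow_mul (Nat.cast_nonneg _), mul_one_div_cancel hκ.ne', Real.rpow_one] at h3
        · rintro ⟨h1, h2⟩
          refine ⟨h1, ?_⟩
          have h3 := Real.rpow_le_rpow (by positivity) h2 (z := κ) (by positivity)
          rwa [← Real.rpow_mul hX0.le, one_div_mul_cancel hκ.ne', Real.rpow_one] at h3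
      rw [e1]
      obtain ⟨h1, h2⟩ := hC (X ^ (1 / κ)) (Real.one_le_rpow hX (by positivity))
      refine ⟨h1, h2.trans (le_of_eq ?_)⟩
      rw [← Real.rpow_mul hX0.le]
      congr 2
      field_simp)
  filter_upwards [key] with ω hω
  refine hω.subset ?_
  rintro t ⟨h1, m, h2, h3, h4⟩
  refine ⟨h1, m, ?_, h2, by linarith [(Nat.cast_nonneg m : (0 : ℝ) ≤ m)]⟩
  simpa using h3

theorem hit_mono {A : Set ℕ} {κ κ' : ℝ} (hκ : κ' ≤ κ) {t : ℤ × ℤ × ℤ} (h1 : 1 ≤ size t) (h : Hit A κ t) :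
    Hit A κ' t := by
  obtain ⟨m, h2, h3, h4⟩ := h
  exact ⟨m, h2, h3, (Real.rpow_le_rpow_of_exponent_le (by exact_mod_cast h1) hκ).trans h4⟩

/-- **Theorem.** Let `α > 0`. Random sets of density `n ^ (-α)` exist, and there are numbers `E κ` and `δ κ > 0` for
`κ > 0` such that almost every such set `A` has the following properties. (1) For every finite set `S` of primes and all
`κ > 0` only finitely many triples of terms of `S`-solutions with an exponent at least `E κ` have a term of absolute value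
in `A` which is at least `H ^ κ`, `H` the largest absolute value of the terms. (2) The same for the solutions with
coefficients of radical at most `H ^ (δ κ)` and with a base at most `H ^ (δ κ)`. (3) If `α < 1 / 2`, then for
all `η > 0` and `κ < 1` each large `n` has at least `n ^ (1 - 2 α - η)` representations as a sum of two coprime elements of
`A`, both at least `n ^ κ`. (4) If `α < 1`, the number of elements of `A` up to `T` is `T ^ (1 - α + o(1))`. -/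
theorem result (α : ℝ) (hα : 0 < α) :
    (∃ (Ω : Type) (_ : MeasurableSpace Ω) (μ : Measure Ω) (R : ℕ → Set Ω), IsRandomSet α μ R) ∧
    ∃ (E : ℝ → ℕ) (δ : ℝ → ℝ), (∀ κ : ℝ, 0 < κ → 0 < δ κ) ∧
    ∀ (Ω : Type) [MeasurableSpace Ω] (μ : Measure Ω) (R : ℕ → Set Ω), IsRandomSet α μ R →
      ∀ᵐ ω ∂μ,
        (∀ (S : Finset ℕ) (κ : ℝ), 0 < κ → {t | t ∈ STerms S (E κ) ∧ Hit {m | ω ∈ R m} κ t}.Finite) ∧
        (∀ κ : ℝ, 0 < κ → {t | t ∈ Terms (δ κ) ∧ Hit {m | ω ∈ R m} κ t}.Finite) ∧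
        (α < 1 / 2 → ∀ η κ : ℝ, 0 < η → κ < 1 → ∃ n₀ : ℕ, ∀ n : ℕ, n₀ ≤ n →
          (n : ℝ) ^ (1 - 2 * α - η) ≤ ((Reps {m | ω ∈ R m} κ n).ncard : ℝ)) ∧
        (α < 1 → ∀ η : ℝ, 0 < η →
          (∃ T₀ : ℝ, ∀ T : ℝ, T₀ ≤ T → T ^ (1 - α - η) ≤ ({m : ℕ | ω ∈ R m ∧ (m : ℝ) ≤ T}.ncard : ℝ)) ∧
          ∃ K : ℝ, ∀ T : ℝ, 1 ≤ T → ({m : ℕ | ω ∈ R m ∧ (m : ℝ) ≤ T}.ncard : ℝ) ≤ K * T ^ (1 - α + η)) := by
  classical
  refine ⟨?_, ?_⟩
  · obtain ⟨Ω, m, μ, R, h⟩ := Pool.Agent.T6.H23.TB.NN.exists_randomSet α hα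
    exact ⟨Ω, m, μ, R, h.prob, h.meas, h.indep, h.density⟩
  have hk1 : ∀ k : ℕ, (0 : ℝ) < 1 / ((k : ℝ) + 1) := fun k => by positivity
  have hcnt : ∀ k : ℕ, ∃ δ : ℝ, 0 < δ ∧ ∃ C : ℝ, ∀ X : ℝ, 1 ≤ X →
      {t | t ∈ Terms δ ∧ (size t : ℝ) ≤ X}.Finite ∧
        ({t | t ∈ Terms δ ∧ (size t : ℝ) ≤ X}.ncard : ℝ) ≤ C * X ^ (α * (1 / ((k : ℝ) + 1)) / 2) :=
    fun k => count _ (by have := hk1 k; positivity)
  choose δ' hδ' C hC using hcnt
  have hidx : ∀ κ : ℝ, ∃ k : ℕ, 0 < κ → 1 / ((k : ℝ) + 1) ≤ κ := by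
    intro κ
    by_cases hκ : 0 < κ
    · obtain ⟨k, hk⟩ := exists_nat_one_div_lt hκ
      exact ⟨k, fun _ => hk.le⟩
    · exact ⟨0, fun h => absurd h hκ⟩
  choose idx hidx using hidx
  refine ⟨fun κ => ⌈1 / δ' (idx κ)⌉₊, fun κ => δ' (idx κ), fun κ _ => hδ' _, fun Ω _ μ R hR => ?_⟩
  have h : Pool.Agent.T6.H23.TB.NN.IsRandomSet α μ R := ⟨hR.prob, hR.meas, hR.indep, hR.density⟩
  have p1 : ∀ᵐ ω ∂μ, ∀ k : ℕ, {t | t ∈ Terms (δ' k) ∧ Hit {m | ω ∈ R m} (1 / ((k : ℝ) + 1)) t}.Finite := by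
    rw [ae_all_iff]
    intro k
    exact hit_finite h hα _ (δ' k) (C k) (hk1 k) (hC k)
  -- (4)
  have p4 : ∀ᵐ ω ∂μ, ∀ m n : ℕ, α < 1 / 2 → ∃ n₀ : ℕ, ∀ N : ℕ, n₀ ≤ N →
      (N : ℝ) ^ (1 - 2 * α - 1 / ((m : ℝ) + 1)) ≤ ((Reps {m | ω ∈ R m} (1 - 1 / ((n : ℝ) + 1)) N).ncard : ℝ) := by
    rw [ae_all_iff]
    intro m
    rw [ae_all_iff]
    intro n
    by_cases hα1 : α < 1 / 2
    · filter_upwards [Pool.Agent.T6.H23.TB.NN.basis h hα hα1 (1 / ((m : ℝ) + 1)) (1 - 1 / ((n : ℝ) + 1)) (hk1 m)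
        (by linarith [hk1 n])] with ω hω
      intro _
      exact hω
    · exact Filter.Eventually.of_forall (fun ω h3 => absurd h3 hα1)
  -- (5)
  have p5 : ∀ᵐ ω ∂μ, ∀ m : ℕ, α < 1 →
      (∃ T₀ : ℝ, ∀ T : ℝ, T₀ ≤ T →
        T ^ (1 - α - 1 / ((m : ℝ) + 1)) ≤ ({m : ℕ | ω ∈ R m ∧ (m : ℝ) ≤ T}.ncard : ℝ)) ∧
      ∃ K : ℝ, ∀ T : ℝ, 1 ≤ T →
        ({m : ℕ | ω ∈ R m ∧ (m : ℝ) ≤ T}.ncard : ℝ) ≤ K * T ^ (1 - α + 1 / ((m : ℝ) + 1)) := by
    rw [ae_all_iff]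
    intro m
    by_cases hα2 : α < 1
    · filter_upwards [Pool.Agent.T6.H23.TB.NN.size_lower h hα hα2 (1 / ((m : ℝ) + 1)) (hk1 m),
        Pool.Agent.T6.H23.TB.NN.size_upper h hα2 (1 / ((m : ℝ) + 1)) (hk1 m)] with ω hω1 hω2
      intro _
      exact ⟨hω1, hω2⟩
    · exact Filter.Eventually.of_forall (fun ω h3 => absurd h3 hα2)
  filter_upwards [p1, p4, p5] with ω w1 w4 w5
  have q1 : ∀ κ : ℝ, 0 < κ → {t | t ∈ Terms (δ' (idx κ)) ∧ Hit {m | ω ∈ R m} κ t}.Finite := by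
    intro κ hκ
    refine (w1 (idx κ)).subset ?_
    rintro t ⟨h1, h2⟩
    exact ⟨h1, hit_mono (hidx κ hκ) (terms_one_le h1) h2⟩
  refine ⟨fun S κ hκ => ?_, q1, fun hα1 η κ hη hκ => ?_, fun hα2 η hη => ?_⟩
  · obtain ⟨N, hN⟩ := sterms_sub S ⌈1 / δ' (idx κ)⌉₊ (δ' (idx κ)) (hδ' _) (Nat.le_ceil _)
    refine ((q1 κ hκ).union (ball_finite N)).subset ?_
    rintro t ⟨h1, h2⟩
    rcases hN h1 with h3 | h3
    · exact Or.inl ⟨h3, h2⟩
    · exact Or.inr h3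
  · obtain ⟨m, hm⟩ := exists_nat_one_div_lt hη
    obtain ⟨n, hn⟩ := exists_nat_one_div_lt (show 0 < 1 - κ by linarith)
    obtain ⟨n₀, hn₀⟩ := w4 m n hα1
    refine ⟨max n₀ 1, fun N hN => ?_⟩
    have hN1 : 1 ≤ (N : ℝ) := by exact_mod_cast (le_max_right _ _).trans hN
    refine (Real.rpow_le_rpow_of_exponent_le hN1 (by linarith)).trans
      ((hn₀ N ((le_max_left _ _).trans hN)).trans ?_)
    have hsub : Reps {m | ω ∈ R m} (1 - 1 / ((n : ℝ) + 1)) N ⊆ Reps {m | ω ∈ R m} κ N := by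
      rintro a ⟨a1, a2, a3, a4, a5⟩
      exact ⟨a1, a2, a3, a4, (Real.rpow_le_rpow_of_exponent_le hN1 (by linarith)).trans a5⟩
    have hfin : (Reps {m | ω ∈ R m} κ N).Finite :=
      (Finset.finite_toSet (Finset.range N)).subset (fun a ha => by
        have := ha.1
        rw [Finset.mem_coe, Finset.mem_range]
        omega)
    exact_mod_cast Set.ncard_le_ncard hsub hfin
  · obtain ⟨m, hm⟩ := exists_nat_one_div_lt hη
    obtain ⟨⟨T₀, h9⟩, K, h10⟩ := w5 m hα2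
    refine ⟨⟨max T₀ 1, fun T hT => ?_⟩, max K 0, fun T hT => ?_⟩
    · have hT1 : 1 ≤ T := (le_max_right _ _).trans hT
      exact (Real.rpow_le_rpow_of_exponent_le hT1 (by linarith)).trans (h9 T ((le_max_left _ _).trans hT))
    · refine (h10 T hT).trans ?_
      exact mul_le_mul (le_max_left _ _) (Real.rpow_le_rpow_of_exponent_le hT (by linarith))
        (Real.rpow_nonneg (by linarith) _) (le_max_right _ _)

end Pool.Agent.Results.MP_be1fae_nt.RandomBases
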