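import Pool.Agent.W232.FC.Fin2
import Pool.Agent.T6.H58.RP4
import Pool.Agent.Helper112.Arith

/-!
# Generalised Fermat equations with S-unit coefficients and the values of almost all polynomials

Fix a finite set `K` of monomials in `r` variables which contains the powers `x_i ^ j`, `j ≤ d`, of all variables
(other monomials of any degree are allowed), and `θ ≥ 0`. We consider the polynomials with monomials in `K` and integer
coefficients of absolute value at most `H`, and their values at the integer points `t` with `|t i| ≤ H ^ θ`.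

(1) If `d ≥ 1` and `θ (r - 1) < 1 + (d - 1) min (θ, 1)`, then for all `κ > 0` almost no polynomial `P` has a value
`P(t)` which is a term of an `S`-solution of `a x ^ p + b y ^ q = c z ^ r` with a large exponent, and is at least the `κ`-th power of the largest term.

(2) If this is true or `θ r < 2 + 2 d min (θ, 1)`, then for almost no pair `(P, Q)` of polynomials there is a `t` such
that `P(t)`, `Q(t)` and `P(t) + Q(t)` are the terms of an `S`-solution with a large exponent.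

For one variable these are all `θ` (if `d ≥ 1`). Almost no: a proportion of at most `H ^ (-ν)`. In (1) a divisor
argument is used: a coordinate `t i` divides the difference of `P(t)` and the value at the point with `i`-th coordinate `0`.
-/

set_option autoImplicit false

namespace Pool.Agent.Results.MP_be1fae_nt.RandomPolynomials

open MvPolynomial

/-- `a x ^ p + b y ^ q = c z ^ r` in nonzero integers with exponents at least `2` (for positive exponents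
`1 / p + 1 / q + 1 / r < 1` implies this; neither this inequality nor a coprimality condition is imposed) -/
def Solution (a b c x y z : ℤ) (p q r : ℕ) : Prop :=
  2 ≤ p ∧ 2 ≤ q ∧ 2 ≤ r ∧ a ≠ 0 ∧ b ≠ 0 ∧ c ≠ 0 ∧ x ≠ 0 ∧ y ≠ 0 ∧ z ≠ 0 ∧ a * x ^ p + b * y ^ q = c * z ^ r

/-- the largest absolute value of the members of a triple -/
def size (t : ℤ × ℤ × ℤ) : ℕ := max t.1.natAbs (max t.2.1.natAbs t.2.2.natAbs)

/-- the product of the primes dividing `a` -/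
def rad (a : ℤ) : ℕ := ∏ p ∈ a.natAbs.primeFactors, p

/-- the triples of terms `(a x ^ p, b y ^ q, c z ^ r)` of the solutions with coefficients composed of primes of `S` and
with an exponent at least `R` -/
def STerms (S : Finset ℕ) (R : ℕ) : Set (ℤ × ℤ × ℤ) :=
  {t | ∃ (a b c x y z : ℤ) (p q r : ℕ), Solution a b c x y z p q r ∧
    (∀ ℓ : ℕ, ℓ.Prime → (ℓ : ℤ) ∣ a * b * c → ℓ ∈ S) ∧ (R ≤ p ∨ R ≤ q ∨ R ≤ r) ∧
    t = (a * x ^ p, b * y ^ q, c * z ^ r)}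

/-- the triples of terms `(a x ^ p, b y ^ q, c z ^ r)`, the largest of absolute value `H`, of the solutions with
`rad (a), rad (b), rad (c) ≤ H ^ δ` and with a base at most `H ^ δ` -/
def Terms (δ : ℝ) : Set (ℤ × ℤ × ℤ) :=
  {t | ∃ (a b c x y z : ℤ) (p q r : ℕ), Solution a b c x y z p q r ∧ t = (a * x ^ p, b * y ^ q, c * z ^ r) ∧
    (rad a : ℝ) ≤ (size t : ℝ) ^ δ ∧ (rad b : ℝ) ≤ (size t : ℝ) ^ δ ∧ (rad c : ℝ) ≤ (size t : ℝ) ^ δ ∧
    ((x.natAbs : ℝ) ≤ (size t : ℝ) ^ δ ∨ (y.natAbs : ℝ) ≤ (size t : ℝ) ^ δ ∨ (z.natAbs : ℝ) ≤ (size t : ℝ) ^ δ)}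

/-- the polynomials in `r` variables with monomials in `K` and integer coefficients of absolute value at most `H` -/
def Polys {r : ℕ} (K : Finset (Fin r →₀ ℕ)) (H : ℕ) : Set (MvPolynomial (Fin r) ℤ) :=
  {P | P.support ⊆ K ∧ ∀ k, |P.coeff k| ≤ H}

/-- the polynomials of `Polys K H` with a value `P(t)`, `|t i| ≤ H ^ θ`, which is a member of a triple of `𝒯` and whose
absolute value is at least the `κ`-th power of the size of this triple -/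
def Bad1 {r : ℕ} (K : Finset (Fin r →₀ ℕ)) (𝒯 : Set (ℤ × ℤ × ℤ)) (κ θ : ℝ) (H : ℕ) :
    Set (MvPolynomial (Fin r) ℤ) :=
  {P | P ∈ Polys K H ∧ ∃ t : Fin r → ℤ, (∀ i, |(t i : ℝ)| ≤ (H : ℝ) ^ θ) ∧ ∃ s ∈ 𝒯,
    (eval t P = s.1 ∨ eval t P = s.2.1 ∨ eval t P = s.2.2) ∧ (size s : ℝ) ^ κ ≤ |(eval t P : ℝ)|}

/-- the pairs of polynomials of `Polys K H` such that `(P(t), Q(t), P(t) + Q(t))` is in `𝒯` for some `t`,
`|t i| ≤ H ^ θ` -/
def Bad2 {r : ℕ} (K : Finset (Fin r →₀ ℕ)) (𝒯 : Set (ℤ × ℤ × ℤ)) (θ : ℝ) (H : ℕ) :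
    Set (MvPolynomial (Fin r) ℤ × MvPolynomial (Fin r) ℤ) :=
  {P | P.1 ∈ Polys K H ∧ P.2 ∈ Polys K H ∧ ∃ t : Fin r → ℤ, (∀ i, |(t i : ℝ)| ≤ (H : ℝ) ^ θ) ∧
    (eval t P.1, eval t P.2, eval t P.1 + eval t P.2) ∈ 𝒯}

theorem size_pos {t : ℤ × ℤ × ℤ} (h : t.1 ≠ 0) : 1 ≤ size t :=
  le_trans (Int.natAbs_pos.2 h) (le_max_left _ _)

theorem terms_one_le {δ : ℝ} {t : ℤ × ℤ × ℤ} (h : t ∈ Terms δ) : 1 ≤ size t := by
  obtain ⟨a, b, c, x, y, z, p, q, r, ⟨-, -, -, ha, -, -, hx, -⟩, rfl, -⟩ := h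
  exact size_pos (mul_ne_zero ha (pow_ne_zero _ hx))

theorem ball_finite (N : ℕ) : {t : ℤ × ℤ × ℤ | size t ≤ N}.Finite := by
  refine Set.Finite.subset ((Set.finite_Icc (-(N : ℤ)) N).prod
    ((Set.finite_Icc (-(N : ℤ)) N).prod (Set.finite_Icc (-(N : ℤ)) N))) ?_
  rintro ⟨x, y, z⟩ h
  simp only [size, Set.mem_ofPred_eq, max_le_iff] at h
  simp only [Set.mem_prod, Set.mem_Icc]
  omega

theorem count (ε : ℝ) (hε : 0 < ε) : ∃ δ : ℝ, 0 < δ ∧ ∃ C : ℝ, ∀ X : ℝ, 1 ≤ X →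
    {t | t ∈ Terms δ ∧ (size t : ℝ) ≤ X}.Finite ∧
      ({t | t ∈ Terms δ ∧ (size t : ℝ) ≤ X}.ncard : ℝ) ≤ C * X ^ ε := by
  obtain ⟨δ, hδ, X₀, h⟩ := Pool.Agent.W232.FC.sparseC ε hε
  refine ⟨δ, hδ, 1 + ({t : ℤ × ℤ × ℤ | size t ≤ X₀}.ncard : ℝ), fun X hX => ?_⟩
  have hX0 : 0 ≤ X := by linarith
  have hXε : 1 ≤ X ^ ε := Real.one_le_rpow hX hε.le
  have hn0 : (0 : ℝ) ≤ ({t : ℤ × ℤ × ℤ | size t ≤ X₀}.ncard : ℝ) := Nat.cast_nonneg _
  have hfl : ∀ t : ℤ × ℤ × ℤ, (size t : ℝ) ≤ X → size t ≤ ⌊X⌋₊ := fun t ht => Nat.le_floor ht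
  rcases le_total X₀ ⌊X⌋₊ with hc | hc
  · have hsub : {t | t ∈ Terms δ ∧ (size t : ℝ) ≤ X} ⊆ Pool.Agent.W232.FC.SolC ⌊X⌋₊ ((⌊X⌋₊ : ℝ) ^ δ) := by
      rintro t ⟨⟨a, b, c, x, y, z, p, q, r, ⟨hp, hq, hr, ha, hb, hc, hx, hy, hz, he⟩, ht, h1, h2, h3, h4⟩, hs⟩
      have hs' := hfl t hs
      have hle : (size t : ℝ) ^ δ ≤ (⌊X⌋₊ : ℝ) ^ δ :=
        Real.rpow_le_rpow (Nat.cast_nonneg _) (by exact_mod_cast hs') hδ.le
      have hm : t.1.natAbs ≤ ⌊X⌋₊ ∧ t.2.1.natAbs ≤ ⌊X⌋₊ ∧ t.2.2.natAbs ≤ ⌊X⌋₊ := by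
        unfold size at hs'
        simpa [max_le_iff] using hs'
      refine ⟨by rw [ht]; exact he, hm.1, hm.2.1, hm.2.2, a, b, c, x, y, z, p, q, r, ha, hb, hc, hx, hy, hz,
        hp, hq, hr, ht, h1.trans hle, h2.trans hle, h3.trans hle, ?_⟩
      rcases h4 with h4 | h4 | h4
      · exact Or.inl (h4.trans hle)
      · exact Or.inr (Or.inl (h4.trans hle))
      · exact Or.inr (Or.inr (h4.trans hle))
    have hfin := Pool.Agent.W232.FC.SolC_finite ⌊X⌋₊ ((⌊X⌋₊ : ℝ) ^ δ)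
    refine ⟨hfin.subset hsub, ?_⟩
    have e1 : ({t | t ∈ Terms δ ∧ (size t : ℝ) ≤ X}.ncard : ℝ) ≤ (⌊X⌋₊ : ℝ) ^ ε :=
      le_trans (by exact_mod_cast Set.ncard_le_ncard hsub hfin) (h _ hc)
    have e2 : (⌊X⌋₊ : ℝ) ^ ε ≤ X ^ ε :=
      Real.rpow_le_rpow (Nat.cast_nonneg _) (Nat.floor_le hX0) hε.le
    nlinarith
  · have hsub : {t | t ∈ Terms δ ∧ (size t : ℝ) ≤ X} ⊆ {t : ℤ × ℤ × ℤ | size t ≤ X₀} :=
      fun t ht => (hfl t ht.2).trans hc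
    refine ⟨(ball_finite X₀).subset hsub, ?_⟩
    have e1 : ({t | t ∈ Terms δ ∧ (size t : ℝ) ≤ X}.ncard : ℝ) ≤ ({t : ℤ × ℤ × ℤ | size t ≤ X₀}.ncard : ℝ) := by
      exact_mod_cast Set.ncard_le_ncard hsub (ball_finite X₀)
    nlinarith

/-- an `S`-solution with an exponent at least `1 / δ` is in `Terms δ`, if it is large enough -/
theorem sterms_sub (S : Finset ℕ) (R : ℕ) (δ : ℝ) (hδ : 0 < δ) (hR : 1 / δ ≤ R) :
    ∃ N : ℕ, STerms S R ⊆ Terms δ ∪ {t | size t ≤ N} := by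
  set P : ℕ := ∏ p ∈ S.filter Nat.Prime, p with hP
  refine ⟨⌈(P : ℝ) ^ (1 / δ)⌉₊, ?_⟩
  rintro t ⟨a, b, c, x, y, z, p, q, r, hsol, hS, hex, rfl⟩
  set t : ℤ × ℤ × ℤ := (a * x ^ p, b * y ^ q, c * z ^ r) with ht
  by_cases hN : size t ≤ ⌈(P : ℝ) ^ (1 / δ)⌉₊
  · exact Or.inr hN
  left
  obtain ⟨hp, hq, hr, ha, hb, hc, hx, hy, hz, he⟩ := hsol
  push Not at hN
  have hsz : (1 : ℝ) ≤ size t := by exact_mod_cast size_pos (t := t) (mul_ne_zero ha (pow_ne_zero _ hx))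
  have hPle : (P : ℝ) ≤ (size t : ℝ) ^ δ := by
    have h1 : (P : ℝ) ^ (1 / δ) ≤ size t := (Nat.le_ceil _).trans (by exact_mod_cast hN.le)
    have h2 := Real.rpow_le_rpow (by positivity) h1 hδ.le
    rwa [← Real.rpow_mul (Nat.cast_nonneg _), one_div, inv_mul_cancel₀ hδ.ne', Real.rpow_one] at h2
  have hrad : ∀ u : ℤ, u ≠ 0 → u ∣ a * b * c → (rad u : ℝ) ≤ (size t : ℝ) ^ δ := by
    intro u hu hd
    refine le_trans ?_ hPle
    have hdv : rad u ∣ P := by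
      unfold rad
      refine Finset.prod_dvd_prod_of_subset _ _ _ ?_
      intro ℓ hℓ
      rw [Finset.mem_filter]
      exact ⟨hS ℓ (Nat.prime_of_mem_primeFactors hℓ)
        ((Int.natCast_dvd.2 (Nat.dvd_of_mem_primeFactors hℓ)).trans hd), Nat.prime_of_mem_primeFactors hℓ⟩
    have hpos : 0 < P := Finset.prod_pos fun p hp => (Finset.mem_filter.1 hp).2.pos
    exact_mod_cast Nat.le_of_dvd hpos hdv
  have hbase : ∀ (u v : ℤ) (n : ℕ), u ≠ 0 → v ≠ 0 → R ≤ n → (u * v ^ n).natAbs ≤ size t →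
      (v.natAbs : ℝ) ≤ (size t : ℝ) ^ δ := by
    intro u v n hu hv hn hle
    have hv1 : (1 : ℝ) ≤ v.natAbs := by exact_mod_cast Int.natAbs_pos.2 hv
    have h1 : ((v.natAbs : ℝ)) ^ R ≤ size t := by
      have h2 : v.natAbs ^ R ≤ (u * v ^ n).natAbs := by
        rw [Int.natAbs_mul, Int.natAbs_pow]
        calc v.natAbs ^ R ≤ v.natAbs ^ n := Nat.pow_le_pow_right (Int.natAbs_pos.2 hv) hn
          _ = 1 * v.natAbs ^ n := (one_mul _).symm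
          _ ≤ u.natAbs * v.natAbs ^ n := Nat.mul_le_mul_right _ (Int.natAbs_pos.2 hu)
      exact_mod_cast h2.trans hle
    have h3 : (v.natAbs : ℝ) ^ (1 / δ) ≤ size t := by
      refine le_trans ?_ h1
      rw [← Real.rpow_natCast]
      exact Real.rpow_le_rpow_of_exponent_le hv1 hR
    have h4 := Real.rpow_le_rpow (by positivity) h3 hδ.le
    rwa [← Real.rpow_mul (Nat.cast_nonneg _), one_div, inv_mul_cancel₀ hδ.ne', Real.rpow_one] at h4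
  have hm1 : (a * x ^ p).natAbs ≤ size t := le_max_left _ _
  have hm2 : (b * y ^ q).natAbs ≤ size t := (le_max_left _ _).trans (le_max_right _ _)
  have hm3 : (c * z ^ r).natAbs ≤ size t := (le_max_right _ _).trans (le_max_right _ _)
  refine ⟨a, b, c, x, y, z, p, q, r, ⟨hp, hq, hr, ha, hb, hc, hx, hy, hz, he⟩, ht, ?_, ?_, ?_, ?_⟩
  · exact hrad a ha ⟨b * c, by ring⟩
  · exact hrad b hb ⟨a * c, by ring⟩
  · exact hrad c hc ⟨a * b, by ring⟩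
  · rcases hex with h | h | h
    · exact Or.inl (hbase a x p ha hx h hm1)
    · exact Or.inr (Or.inl (hbase b y q hb hy h hm2))
    · exact Or.inr (Or.inr (hbase c z r hc hz h hm3))

/-! ### Polynomials -/

section Poly

open Pool.Agent.T6.H58.RP

variable {r : ℕ} (K : Finset (Fin r →₀ ℕ))

/-- the polynomial with given coefficients -/
noncomputable def toP (c : K → ℤ) : MvPolynomial (Fin r) ℤ := ∑ k : K, monomial k.1 (c k)

theorem coeff_toP (c : K → ℤ) (m : Fin r →₀ ℕ) :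
    (toP K c).coeff m = if h : m ∈ K then c ⟨m, h⟩ else 0 := by
  classical
  unfold toP
  rw [coeff_sum]
  by_cases h : m ∈ K
  · rw [dif_pos h, Finset.sum_eq_single (⟨m, h⟩ : K)]
    · simp
    · intro b _ hb
      rw [coeff_monomial, if_neg]
      intro hc
      exact hb (Subtype.ext hc)
    · intro hc
      exact absurd (Finset.mem_univ _) hc
  · rw [dif_neg h]
    apply Finset.sum_eq_zero
    intro b _
    rw [coeff_monomial, if_neg]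
    intro hc
    exact h (hc ▸ b.2)

theorem toP_injective : Function.Injective (toP K) := by
  intro c c' h
  funext k
  have h1 := congrArg (fun P => P.coeff k.1) h
  simp only [coeff_toP] at h1
  rw [dif_pos k.2, dif_pos k.2] at h1
  exact h1

theorem polys_eq (H : ℕ) : Polys K H = toP K '' (cbox K H : Set (K → ℤ)) := by
  ext P
  constructor
  · rintro ⟨h1, h2⟩
    refine ⟨fun k => P.coeff k.1, ?_, ?_⟩
    · rw [Finset.mem_coe, mem_cbox]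
      exact fun k => abs_le.1 (h2 k.1)
    · ext m
      rw [coeff_toP]
      by_cases h : m ∈ K
      · rw [dif_pos h]
      · rw [dif_neg h]
        by_contra hc
        exact h (h1 (mem_support_iff.2 (fun h0 => hc h0.symm)))
  · rintro ⟨c, hc, rfl⟩
    rw [Finset.mem_coe, mem_cbox] at hc
    constructor
    · intro m hm
      by_contra h
      rw [mem_support_iff, coeff_toP, dif_neg h] at hm
      exact hm rfl
    · intro m
      rw [coeff_toP]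
      by_cases h : m ∈ K
      · rw [dif_pos h]
        exact abs_le.2 (hc _)
      · rw [dif_neg h]
        simp

theorem polys_finite (H : ℕ) : (Polys K H).Finite := by
  rw [polys_eq]
  exact (Finset.finite_toSet _).image _

theorem polys_ncard (H : ℕ) : (Polys K H).ncard = (2 * H + 1) ^ K.card := by
  rw [polys_eq, Set.ncard_image_of_injective _ (toP_injective K), Set.ncard_coe_finset, card_cbox,
    Fintype.card_coe]

theorem eval_toP (c : K → ℤ) (t : Fin r → ℤ) : eval t (toP K c) = ∑ k : K, c k * mon t k.1 := by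
  unfold toP
  rw [map_sum]
  apply Finset.sum_congr rfl
  intro k _
  rw [eval_monomial]
  rfl

/-- the weight of a point -/
noncomputable def wt (d H : ℕ) (t : Fin r → ℤ) : ℝ :=
  (2 * (H : ℝ) + 1)⁻¹ * (2 / min (max (nrm t : ℝ) 1) (2 * (H : ℝ) + 1)) ^ d

theorem wt_nonneg (d H : ℕ) (t : Fin r → ℤ) : 0 ≤ wt d H t := by
  unfold wt
  have h1 : (0 : ℝ) ≤ 2 * (H : ℝ) + 1 := by positivity
  have h2 : (0 : ℝ) ≤ min (max (nrm t : ℝ) 1) (2 * (H : ℝ) + 1) :=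
    le_min (le_max_of_le_right zero_le_one) h1
  positivity

theorem val_count (d : ℕ) (h0 : 0 ∈ K) (hK : ∀ i, ∀ j ≤ d, Finsupp.single i j ∈ K) (H : ℕ)
    (t : Fin r → ℤ) (A : ℤ) :
    ({P | P ∈ Polys K H ∧ eval t P = A}.ncard : ℝ) ≤ (2 * (H : ℝ) + 1) ^ K.card * wt d H t := by
  classical
  have h : {P | P ∈ Polys K H ∧ eval t P = A} =
      toP K '' ({c ∈ cbox K H | ∑ k : K, c k * mon t k.1 = A} : Finset (K → ℤ)) := by
    rw [polys_eq]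
    ext P
    constructor
    · rintro ⟨⟨c, hc, rfl⟩, h2⟩
      refine ⟨c, ?_, rfl⟩
      rw [Finset.mem_coe, Finset.mem_filter]
      exact ⟨hc, by rw [← eval_toP]; exact h2⟩
    · rintro ⟨c, hc, rfl⟩
      rw [Finset.mem_coe, Finset.mem_filter] at hc
      exact ⟨⟨c, hc.1, rfl⟩, by rw [eval_toP]; exact hc.2⟩
  rw [h, Set.ncard_image_of_injective _ (toP_injective K), Set.ncard_coe_finset]
  exact count_val r d K h0 hK H t A

theorem bad2_count (d : ℕ) (h0 : 0 ∈ K) (hK : ∀ i, ∀ j ≤ d, Finsupp.single i j ∈ K) (H M : ℕ)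
    (B : Set (MvPolynomial (Fin r) ℤ × MvPolynomial (Fin r) ℤ)) (G : Finset (ℤ × ℤ))
    (hB : ∀ P ∈ B, P.1 ∈ Polys K H ∧ P.2 ∈ Polys K H ∧
      ∃ t ∈ cbox (Fin r) M, (eval t P.1, eval t P.2) ∈ G) :
    (B.ncard : ℝ) ≤ (G.card : ℝ) * (((2 * (H : ℝ) + 1) ^ K.card) ^ 2 *
      ∑ t ∈ cbox (Fin r) M, wt d H t ^ 2) := by
  classical
  have hfin := polys_finite K H
  set PF := hfin.toFinset with hPF
  set U : Finset (MvPolynomial (Fin r) ℤ × MvPolynomial (Fin r) ℤ) :=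
    (cbox (Fin r) M ×ˢ G).biUnion (fun x => (PF.filter (fun P => eval x.1 P = x.2.1)) ×ˢ
      (PF.filter (fun P => eval x.1 P = x.2.2))) with hU
  have hsub : B ⊆ (U : Set (MvPolynomial (Fin r) ℤ × MvPolynomial (Fin r) ℤ)) := by
    intro P hP
    obtain ⟨h1, h1', t, ht, h2⟩ := hB P hP
    rw [Finset.mem_coe, hU, Finset.mem_biUnion]
    refine ⟨(t, eval t P.1, eval t P.2), Finset.mem_product.2 ⟨ht, h2⟩, ?_⟩
    rw [Finset.mem_product, Finset.mem_filter, Finset.mem_filter, hPF, Set.Finite.mem_toFinset,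
      Set.Finite.mem_toFinset]
    exact ⟨⟨h1, rfl⟩, ⟨h1', rfl⟩⟩
  have hL : (0 : ℝ) ≤ (2 * (H : ℝ) + 1) ^ K.card := by positivity
  have hone : ∀ (t : Fin r → ℤ) (A : ℤ), ((PF.filter (fun P => eval t P = A)).card : ℝ) ≤
      (2 * (H : ℝ) + 1) ^ K.card * wt d H t := by
    intro t A
    refine le_trans (le_of_eq ?_) (val_count K d h0 hK H t A)
    rw [← Set.ncard_coe_finset]
    congr 2
    ext P
    simp only [Finset.coe_filter, hPF, Set.Finite.mem_toFinset]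
  have hcard : ∀ x ∈ cbox (Fin r) M ×ˢ G, (((PF.filter (fun P => eval x.1 P = x.2.1)) ×ˢ
      (PF.filter (fun P => eval x.1 P = x.2.2))).card : ℝ) ≤
      ((2 * (H : ℝ) + 1) ^ K.card) ^ 2 * wt d H x.1 ^ 2 := by
    intro x _
    rw [Finset.card_product]
    push_cast
    have h1 := hone x.1 x.2.1
    have h2 := hone x.1 x.2.2
    have h3 : 0 ≤ (2 * (H : ℝ) + 1) ^ K.card * wt d H x.1 := mul_nonneg hL (wt_nonneg _ _ _)
    calc _ ≤ ((2 * (H : ℝ) + 1) ^ K.card * wt d H x.1) *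
          ((2 * (H : ℝ) + 1) ^ K.card * wt d H x.1) :=
          mul_le_mul h1 h2 (Nat.cast_nonneg _) h3
      _ = _ := by ring
  calc (B.ncard : ℝ) ≤ (U.card : ℝ) := by
        rw [← Set.ncard_coe_finset]
        exact_mod_cast Set.ncard_le_ncard hsub (Finset.finite_toSet _)
    _ ≤ ∑ x ∈ cbox (Fin r) M ×ˢ G, (((PF.filter (fun P => eval x.1 P = x.2.1)) ×ˢ
      (PF.filter (fun P => eval x.1 P = x.2.2))).card : ℝ) := by
        exact_mod_cast Finset.card_biUnion_le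
    _ ≤ ∑ x ∈ cbox (Fin r) M ×ˢ G, ((2 * (H : ℝ) + 1) ^ K.card) ^ 2 * wt d H x.1 ^ 2 :=
        Finset.sum_le_sum hcard
    _ = _ := by
        rw [Finset.sum_product]
        simp only [Finset.sum_const, nsmul_eq_mul]
        rw [← Finset.mul_sum, ← Finset.mul_sum]

/-- the sum of the weights -/
theorem sum_wt (r d m : ℕ) (θ : ℝ) (hθ : 0 ≤ θ) (hm : 1 ≤ m)
    (h : θ * r < m + m * d * min θ 1) :
    ∃ ν : ℝ, 0 < ν ∧ ∃ C : ℝ, 0 < C ∧ ∀ H : ℕ, 2 ≤ H → ∀ M : ℕ, (M : ℝ) ≤ (H : ℝ) ^ θ →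
      ∑ t ∈ cbox (Fin r) M, wt d H t ^ m ≤ C * (H : ℝ) ^ (-ν) := by
  have hm1 : (1 : ℝ) ≤ m := by exact_mod_cast hm
  have hd0 : (0 : ℝ) ≤ d := Nat.cast_nonneg _
  have hr0 : (0 : ℝ) ≤ r := Nat.cast_nonneg _
  set s : ℝ := m * d with hs
  have hs0 : 0 ≤ s := by positivity
  set ν₀ : ℝ := min (m : ℝ) (m + m * d * min θ 1 - θ * r) with hν
  have hν0 : 0 < ν₀ := lt_min (by linarith) (by linarith)
  have hν1 : ν₀ ≤ m := min_le_left _ _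
  have hν2 : ν₀ ≤ m + s * min θ 1 - θ * r := min_le_right _ _
  have hc : ∀ τ : ℝ, 0 ≤ τ → τ ≤ θ → τ * r - s * min τ 1 ≤ m - ν₀ := by
    intro τ h0 h1
    rcases le_total θ 1 with h2 | h2
    · rw [min_eq_left (h1.trans h2)]
      rw [min_eq_left h2] at hν2
      rcases le_total ((r : ℝ) - s) 0 with h3 | h3
      · nlinarith
      · nlinarith
    · rw [min_eq_right h2] at hν2
      rcases le_total τ 1 with h4 | h4
      · rw [min_eq_left h4]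
        rcases le_total ((r : ℝ) - s) 0 with h3 | h3
        · nlinarith
        · nlinarith
      · rw [min_eq_right h4]
        nlinarith
  set η : ℝ := ν₀ / (2 * (r + 1)) with hη
  have hη0 : 0 < η := by positivity
  have hηr : η * r ≤ ν₀ / 2 := by
    rw [hη, div_mul_eq_mul_div, div_le_div_iff₀ (by positivity) (by norm_num)]
    nlinarith
  obtain ⟨C, hC, hsc⟩ := scale r θ s (m - ν₀) η hθ hs0 hη0 hc
  refine ⟨ν₀ / 2, by linarith, 2 ^ (m * d) * C, by positivity, ?_⟩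
  intro H hH M hM
  have hH1 : (1 : ℝ) ≤ H := by exact_mod_cast (by omega : 1 ≤ H)
  have hH0 : (0 : ℝ) < H := by linarith
  have hwt : ∀ t : Fin r → ℤ, wt d H t ^ m ≤ ((H : ℝ) ^ (-(m : ℝ)) * 2 ^ (m * d)) *
      (min (max (nrm t : ℝ) 1) (2 * (H : ℝ) + 1)) ^ (-s) := by
    intro t
    set x : ℝ := min (max (nrm t : ℝ) 1) (2 * (H : ℝ) + 1) with hx
    have hx0 : 0 < x := lt_min (lt_of_lt_of_le one_pos (le_max_right _ _)) (by linarith)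
    have e1 : wt d H t ^ m = ((2 * (H : ℝ) + 1)⁻¹) ^ m * 2 ^ (m * d) * x ^ (-s) := by
      unfold wt
      rw [← hx, mul_pow, div_pow, div_pow, ← pow_mul, ← pow_mul, Nat.mul_comm d m,
        Real.rpow_neg hx0.le, hs]
      have : x ^ ((m : ℝ) * (d : ℝ)) = x ^ (m * d) := by
        rw [← Nat.cast_mul, Real.rpow_natCast]
      rw [this]
      ring
    rw [e1]
    have e2 : ((2 * (H : ℝ) + 1)⁻¹) ^ m ≤ (H : ℝ) ^ (-(m : ℝ)) := by
      rw [Real.rpow_neg hH0.le, Real.rpow_natCast, inv_pow]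
      apply inv_anti₀ (by positivity)
      exact pow_le_pow_left₀ hH0.le (by linarith) m
    apply mul_le_mul_of_nonneg_right _ (Real.rpow_nonneg hx0.le _)
    exact mul_le_mul_of_nonneg_right e2 (by positivity)
  calc ∑ t ∈ cbox (Fin r) M, wt d H t ^ m
      ≤ ∑ t ∈ cbox (Fin r) M, ((H : ℝ) ^ (-(m : ℝ)) * 2 ^ (m * d)) *
        (min (max (nrm t : ℝ) 1) (2 * (H : ℝ) + 1)) ^ (-s) := Finset.sum_le_sum fun t _ => hwt t
    _ = ((H : ℝ) ^ (-(m : ℝ)) * 2 ^ (m * d)) * ∑ t ∈ cbox (Fin r) M,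
        (min (max (nrm t : ℝ) 1) (2 * (H : ℝ) + 1)) ^ (-s) := by rw [Finset.mul_sum]
    _ ≤ ((H : ℝ) ^ (-(m : ℝ)) * 2 ^ (m * d)) * (C * (H : ℝ) ^ (m - ν₀ + η * r)) :=
        mul_le_mul_of_nonneg_left (hsc H hH M hM) (by positivity)
    _ = 2 ^ (m * d) * C * (H : ℝ) ^ (-(m : ℝ) + (m - ν₀ + η * r)) := by
        rw [Real.rpow_add hH0 (-(m : ℝ)) (m - ν₀ + η * r)]; ring
    _ ≤ 2 ^ (m * d) * C * (H : ℝ) ^ (-(ν₀ / 2)) := by
        apply mul_le_mul_of_nonneg_left _ (by positivity)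
        apply Real.rpow_le_rpow_of_exponent_le hH1
        linarith

/-- the largest degree -/
def deg : ℕ := K.sup fun k => ∑ i ∈ k.support, k i

theorem eval_bound (H : ℕ) (Y : ℝ) (hY : 1 ≤ Y) (t : Fin r → ℤ) (ht : ∀ i, |(t i : ℝ)| ≤ Y)
    (P : MvPolynomial (Fin r) ℤ) (hP : P ∈ Polys K H) :
    |((eval t P : ℤ) : ℝ)| ≤ (K.card : ℝ) * (H * Y ^ deg K) := by
  rw [polys_eq] at hP
  obtain ⟨c, hc, rfl⟩ := hP
  rw [Finset.mem_coe, mem_cbox] at hc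
  rw [eval_toP]
  push_cast
  have h1 : ∀ k : K, |(c k : ℝ) * (mon t k.1 : ℝ)| ≤ H * Y ^ deg K := by
    intro k
    rw [abs_mul]
    have h2 : |(c k : ℝ)| ≤ H := by
      rw [abs_le]
      exact ⟨by exact_mod_cast (hc k).1, by exact_mod_cast (hc k).2⟩
    have h3 : |(mon t k.1 : ℝ)| ≤ Y ^ deg K := by
      unfold mon Finsupp.prod
      push_cast
      rw [Finset.abs_prod]
      calc ∏ i ∈ k.1.support, |(t i : ℝ) ^ k.1 i| ≤ ∏ i ∈ k.1.support, Y ^ k.1 i := by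
            apply Finset.prod_le_prod (fun i _ => abs_nonneg _)
            intro i _
            rw [abs_pow]
            exact pow_le_pow_left₀ (abs_nonneg _) (ht i) _
        _ = Y ^ (∑ i ∈ k.1.support, k.1 i) := Finset.prod_pow_eq_pow_sum _ _ _
        _ ≤ Y ^ deg K := pow_le_pow_right₀ hY
            (Finset.le_sup (f := fun k : Fin r →₀ ℕ => ∑ i ∈ k.support, k i) k.2)
    exact mul_le_mul h2 h3 (abs_nonneg _) (Nat.cast_nonneg _)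
  calc |∑ k : K, (c k : ℝ) * (mon t k.1 : ℝ)| ≤ ∑ k : K, |(c k : ℝ) * (mon t k.1 : ℝ)| :=
        Finset.abs_sum_le_sum_abs _ _
    _ ≤ ∑ _k : K, (H * Y ^ deg K : ℝ) := Finset.sum_le_sum fun k _ => h1 k
    _ = (K.card : ℝ) * (H * Y ^ deg K) := by
        rw [Finset.sum_const, nsmul_eq_mul, Finset.card_univ, Fintype.card_coe]

theorem mem_of_le (H : ℕ) (θ : ℝ) (t : Fin r → ℤ) (ht : ∀ i, |(t i : ℝ)| ≤ (H : ℝ) ^ θ) :
    t ∈ cbox (Fin r) ⌊(H : ℝ) ^ θ⌋₊ := by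
  rw [mem_cbox]
  intro i
  have h1 : (t i).natAbs ≤ ⌊(H : ℝ) ^ θ⌋₊ := by
    apply Nat.le_floor
    rw [Nat.cast_natAbs]
    push_cast
    exact ht i
  omega

/-- a set of triples with few elements of bounded size -/
def Sparse (𝒯 : Set (ℤ × ℤ × ℤ)) (ε : ℝ) : Prop := ∃ C : ℝ, 0 < C ∧ ∀ X : ℝ, 1 ≤ X →
  {t | t ∈ 𝒯 ∧ (size t : ℝ) ≤ X}.Finite ∧ ({t | t ∈ 𝒯 ∧ (size t : ℝ) ≤ X}.ncard : ℝ) ≤ C * X ^ ε

theorem eventually_le (C ν : ℝ) (hν : 0 < ν) : ∃ H₀ : ℕ, 2 ≤ H₀ ∧ ∀ H : ℕ, H₀ ≤ H →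
    C ≤ (H : ℝ) ^ ν := by
  obtain ⟨N, hN⟩ := exists_nat_ge ((max C 1) ^ (1 / ν))
  refine ⟨max N 2, le_max_right _ _, fun H hH => ?_⟩
  have h1 : (max C 1) ^ (1 / ν) ≤ (H : ℝ) :=
    hN.trans (by exact_mod_cast (le_max_left N 2).trans hH)
  have h0 : (0 : ℝ) ≤ max C 1 := le_max_of_le_right zero_le_one
  have h2 := Real.rpow_le_rpow (Real.rpow_nonneg h0 _) h1 hν.le
  rw [← Real.rpow_mul h0, one_div_mul_cancel hν.ne', Real.rpow_one] at h2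
  exact (le_max_left _ _).trans h2

/-- the exponents of the size of the values -/
theorem val_pow (H : ℕ) (hH : 2 ≤ H) (θ ε' : ℝ) (hε : 0 ≤ ε') :
    ((K.card : ℝ) * (H * ((H : ℝ) ^ θ) ^ deg K)) ^ ε' =
      (K.card : ℝ) ^ ε' * (H : ℝ) ^ ((1 + θ * deg K) * ε') := by
  have hH0 : (0 : ℝ) < H := by exact_mod_cast (by omega : 0 < H)
  have _ := hε
  rw [Real.mul_rpow (Nat.cast_nonneg _) (by positivity)]
  congr 1
  have e1 : (H : ℝ) * ((H : ℝ) ^ θ) ^ deg K = (H : ℝ) ^ (1 + θ * deg K) := by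
    rw [← Real.rpow_natCast ((H : ℝ) ^ θ), ← Real.rpow_mul hH0.le, Real.rpow_add hH0 1,
      Real.rpow_one]
  rw [e1, ← Real.rpow_mul hH0.le]


theorem one_le_X (h0 : 0 ∈ K) (H : ℕ) (hH : 2 ≤ H) (θ : ℝ) (hθ : 0 ≤ θ) :
    1 ≤ (K.card : ℝ) * (H * ((H : ℝ) ^ θ) ^ deg K) := by
  have h1 : (1 : ℝ) ≤ K.card := by exact_mod_cast Finset.card_pos.2 ⟨0, h0⟩
  have h2 : (1 : ℝ) ≤ H := by exact_mod_cast (by omega : 1 ≤ H)
  have h3 : (1 : ℝ) ≤ (H : ℝ) ^ θ := Real.one_le_rpow h2 hθ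
  have h4 : (1 : ℝ) ≤ ((H : ℝ) ^ θ) ^ deg K := one_le_pow₀ h3
  have h5 : (1 : ℝ) ≤ H * ((H : ℝ) ^ θ) ^ deg K := by nlinarith
  nlinarith

/-- the set `Bad1` with a weaker inequality -/
def BadI (𝒯 : Set (ℤ × ℤ × ℤ)) (κ θ : ℝ) (H : ℕ) : Set (MvPolynomial (Fin r) ℤ) :=
  {P | P ∈ Polys K H ∧ ∃ t : Fin r → ℤ, (∀ i, |(t i : ℝ)| ≤ (H : ℝ) ^ θ) ∧ ∃ s ∈ 𝒯,
    (eval t P = s.1 ∨ eval t P = s.2.1 ∨ eval t P = s.2.2) ∧
    (size s : ℝ) ^ κ ≤ 2 * |(eval t P : ℝ)|}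

theorem bad1_main (d : ℕ) (hd : 1 ≤ d) (h0 : 0 ∈ K) (hK : ∀ i, ∀ j ≤ d, Finsupp.single i j ∈ K)
    (θ κ : ℝ) (hθ : 0 ≤ θ) (hκ : 0 < κ) (hc : θ * ((r : ℝ) - 1) < 1 + ((d : ℝ) - 1) * min θ 1) :
    ∃ ε ν : ℝ, 0 < ε ∧ 0 < ν ∧ ∀ 𝒯 : Set (ℤ × ℤ × ℤ), Sparse 𝒯 ε → ∃ H₀ : ℕ, ∀ H : ℕ, H₀ ≤ H →
      ((BadI K 𝒯 κ θ H).ncard : ℝ) ≤ (H : ℝ) ^ (-ν) * ((Polys K H).ncard : ℝ) := by
  classical
  obtain ⟨d', rfl⟩ : ∃ d', d = d' + 1 := ⟨d - 1, by omega⟩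
  rw [show (((d' + 1 : ℕ) : ℝ) - 1) = d' by push_cast; ring] at hc
  have hd0 : (0 : ℝ) ≤ d' := Nat.cast_nonneg _
  have hr0 : (0 : ℝ) ≤ r := Nat.cast_nonneg _
  obtain ⟨ν₀, hν0⟩ : ∃ x : ℝ, x = min 1 (1 + d' * min θ 1 - θ * ((r : ℝ) - 1)) := ⟨_, rfl⟩
  have hν : 0 < ν₀ := by rw [hν0]; exact lt_min one_pos (by linarith)
  have hν1 : ν₀ ≤ 1 := by rw [hν0]; exact min_le_left _ _
  have hν2 : ν₀ ≤ 1 + d' * min θ 1 - θ * ((r : ℝ) - 1) := by rw [hν0]; exact min_le_right _ _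
  have hcond : ∀ τ : ℝ, 0 ≤ τ → τ ≤ θ → τ * ((r : ℝ) - 1) - 1 - d' * min τ 1 ≤ -ν₀ := by
    intro τ h1 h2
    rcases Nat.eq_zero_or_pos r with hr | hr
    · have hr' : (r : ℝ) = 0 := by exact_mod_cast hr
      rw [hr']
      have h3 : 0 ≤ min τ 1 := le_min h1 zero_le_one
      have h4 : 0 ≤ d' * min τ 1 := mul_nonneg hd0 h3
      linarith
    · have hr1 : (1 : ℝ) ≤ r := by exact_mod_cast hr
      rcases le_total θ 1 with h3 | h3
      · rw [min_eq_left (h2.trans h3)]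
        rw [min_eq_left h3] at hν2
        rcases le_total ((r : ℝ) - 1 - d') 0 with h4 | h4
        · nlinarith
        · nlinarith
      · rw [min_eq_right h3] at hν2
        rcases le_total τ 1 with h5 | h5
        · rw [min_eq_left h5]
          rcases le_total ((r : ℝ) - 1 - d') 0 with h4 | h4
          · nlinarith
          · nlinarith
        · rw [min_eq_right h5]
          nlinarith
  obtain ⟨η, hη⟩ : ∃ x : ℝ, x = ν₀ / (4 * (r + 1)) := ⟨_, rfl⟩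
  have hη0 : 0 < η := by rw [hη]; positivity
  have hηr : η * r ≤ ν₀ / 4 := by
    rw [hη, div_mul_eq_mul_div, div_le_div_iff₀ (by positivity) (by norm_num)]
    nlinarith
  obtain ⟨C, hC, hbad⟩ := bad_div r d' K h0 hK θ η ν₀ hθ hη0 hν1 hcond
  have hD : (0 : ℝ) ≤ θ * deg K := by positivity
  obtain ⟨ε₁, hε₁⟩ : ∃ x : ℝ, x = ν₀ / (8 * (1 + θ * deg K)) := ⟨_, rfl⟩
  have hε₁0 : 0 < ε₁ := by rw [hε₁]; positivity
  obtain ⟨Cd, hCd, hdiv⟩ := Pool.Agent.Helper112.divisor_bound ε₁ hε₁0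
  refine ⟨κ * ε₁, ν₀ / 4, by positivity, by positivity, ?_⟩
  rintro 𝒯 ⟨CT, hCT, hT⟩
  obtain ⟨CG, hCG⟩ : ∃ x : ℝ, x = 3 * CT * (2 ^ ε₁ * (K.card : ℝ) ^ ε₁) := ⟨_, rfl⟩
  obtain ⟨Ct, hCt⟩ : ∃ x : ℝ, x = Cd * (2 ^ ε₁ * (K.card : ℝ) ^ ε₁) + 1 := ⟨_, rfl⟩
  have hCG0 : 0 ≤ CG := by rw [hCG]; positivity
  have hCt0 : 0 ≤ Ct := by rw [hCt]; positivity
  obtain ⟨H₀, hH₀, hbig⟩ := eventually_le (C * CG * Ct) (ν₀ / 4) (by positivity)
  refine ⟨H₀, fun H hH => ?_⟩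
  have hH2 : 2 ≤ H := hH₀.trans hH
  have hH1 : (1 : ℝ) ≤ H := by exact_mod_cast (by omega : 1 ≤ H)
  have hHp : (0 : ℝ) < H := by linarith
  set X : ℝ := (K.card : ℝ) * (H * ((H : ℝ) ^ θ) ^ deg K) with hX
  have hX1 : 1 ≤ X := one_le_X K h0 H hH2 θ hθ
  have hXκ : 1 ≤ (2 * X) ^ (1 / κ) := Real.one_le_rpow (by linarith) (by positivity)
  have hXε : X ^ ε₁ = (K.card : ℝ) ^ ε₁ * (H : ℝ) ^ (ν₀ / 8) := by
    rw [hX, val_pow K H hH2 θ ε₁ hε₁0.le]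
    congr 2
    rw [hε₁]
    field_simp
  obtain ⟨hfin, hcard⟩ := hT ((2 * X) ^ (1 / κ)) hXκ
  set F := hfin.toFinset with hF
  set G0 : Finset ℤ := F.image (fun s => s.1) ∪
    (F.image (fun s => s.2.1) ∪ F.image (fun s => s.2.2)) with hG0
  set G : Finset ℤ := G0.filter (fun A => |(A : ℝ)| ≤ X) with hG
  have hFc : (F.card : ℝ) ≤ CT * ((2 * X) ^ (1 / κ)) ^ (κ * ε₁) := by
    rw [hF, ← Set.ncard_eq_toFinset_card _ hfin]
    exact hcard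
  have hGc : (G.card : ℝ) ≤ 3 * (F.card : ℝ) := by
    have h1 : G0.card ≤ (F.image (fun s => s.1)).card +
        ((F.image (fun s => s.2.1)).card + (F.image (fun s => s.2.2)).card) :=
      (Finset.card_union_le _ _).trans (Nat.add_le_add_left (Finset.card_union_le _ _) _)
    have h2 := Finset.card_image_le (s := F) (f := fun s : ℤ × ℤ × ℤ => s.1)
    have h3 := Finset.card_image_le (s := F) (f := fun s : ℤ × ℤ × ℤ => s.2.1)
    have h4 := Finset.card_image_le (s := F) (f := fun s : ℤ × ℤ × ℤ => s.2.2)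
    have h6 : G.card ≤ G0.card := Finset.card_filter_le _ _
    have h5 : G.card ≤ 3 * F.card := by omega
    exact_mod_cast h5
  have hGb : (G.card : ℝ) ≤ CG * (H : ℝ) ^ (ν₀ / 8) := by
    have h1 : ((2 * X) ^ (1 / κ)) ^ (κ * ε₁) = 2 ^ ε₁ * X ^ ε₁ := by
      rw [← Real.rpow_mul (by linarith), ← Real.mul_rpow (by norm_num) (by linarith)]
      congr 1
      field_simp
    rw [h1, hXε] at hFc
    calc (G.card : ℝ) ≤ 3 * (F.card : ℝ) := hGc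
      _ ≤ 3 * (CT * (2 ^ ε₁ * ((K.card : ℝ) ^ ε₁ * (H : ℝ) ^ (ν₀ / 8)))) := by linarith
      _ = _ := by rw [hCG]; ring
  obtain ⟨tau, htau⟩ : ∃ n : ℕ, n = ⌊Cd * (2 * X) ^ ε₁⌋₊ := ⟨_, rfl⟩
  have htau1 : (tau : ℝ) + 1 ≤ Ct * (H : ℝ) ^ (ν₀ / 8) := by
    have h1 : (tau : ℝ) ≤ Cd * (2 * X) ^ ε₁ := by rw [htau]; exact Nat.floor_le (by positivity)
    have h2 : (2 * X) ^ ε₁ = 2 ^ ε₁ * ((K.card : ℝ) ^ ε₁ * (H : ℝ) ^ (ν₀ / 8)) := by
      rw [Real.mul_rpow (by norm_num) (by linarith), hXε]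
    have h3 : (1 : ℝ) ≤ (H : ℝ) ^ (ν₀ / 8) := Real.one_le_rpow hH1 (by positivity)
    rw [h2] at h1
    rw [hCt]
    calc (tau : ℝ) + 1 ≤ Cd * (2 ^ ε₁ * ((K.card : ℝ) ^ ε₁ * (H : ℝ) ^ (ν₀ / 8))) +
          (H : ℝ) ^ (ν₀ / 8) := add_le_add h1 h3
      _ = _ := by ring
  have hMθ : ((⌊(H : ℝ) ^ θ⌋₊ : ℕ) : ℝ) ≤ (H : ℝ) ^ θ := Nat.floor_le (by positivity)
  have hval : ∀ c ∈ cbox K H, ∀ t ∈ cbox (Fin r) ⌊(H : ℝ) ^ θ⌋₊,
      |((∑ k : K, c k * mon t k.1 : ℤ) : ℝ)| ≤ X := by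
    intro c hc t ht
    rw [← eval_toP]
    apply eval_bound K H ((H : ℝ) ^ θ) (Real.one_le_rpow hH1 hθ) t
    · intro i
      have h1 := mem_cbox.1 ht i
      have h2 : |(t i : ℝ)| ≤ ((⌊(H : ℝ) ^ θ⌋₊ : ℕ) : ℝ) := by
        rw [abs_le]
        exact ⟨by exact_mod_cast h1.1, by exact_mod_cast h1.2⟩
      exact h2.trans hMθ
    · rw [polys_eq]
      exact ⟨c, hc, rfl⟩
  set B : Finset (K → ℤ) := (cbox K H).filter (fun c => ∃ t ∈ cbox (Fin r) ⌊(H : ℝ) ^ θ⌋₊,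
    ∑ k : K, c k * mon t k.1 ∈ G) with hB
  have hBc := hbad H hH2 ⌊(H : ℝ) ^ θ⌋₊ hMθ G tau B (by
    intro A hA c hc t ht hne
    have h1 : |(A : ℝ)| ≤ X := (Finset.mem_filter.1 hA).2
    have h2 := hval c hc t ht
    have h3 : ((A - ∑ k : K, c k * mon t k.1).natAbs : ℝ) ≤ 2 * X := by
      rw [Nat.cast_natAbs]
      push_cast at h2 ⊢
      calc |(A : ℝ) - ∑ k : K, (c k : ℝ) * (mon t k.1 : ℝ)|
          ≤ |(A : ℝ)| + |∑ k : K, (c k : ℝ) * (mon t k.1 : ℝ)| := abs_sub _ _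
        _ ≤ 2 * X := by linarith
    rw [htau]
    apply Nat.le_floor
    refine (hdiv _ (Int.natAbs_pos.2 hne)).trans ?_
    apply mul_le_mul_of_nonneg_left _ hCd.le
    exact Real.rpow_le_rpow (Nat.cast_nonneg _) h3 hε₁0.le) (by
    intro c hc
    exact Finset.mem_filter.1 hc)
  have hsub : BadI K 𝒯 κ θ H ⊆ toP K '' (B : Set (K → ℤ)) := by
    rintro P ⟨hP, t, ht, s, hs, hvl, hsz⟩
    rw [polys_eq] at hP
    obtain ⟨c, hcb, rfl⟩ := hP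
    have htb := mem_of_le H θ t ht
    refine ⟨c, ?_, rfl⟩
    rw [Finset.mem_coe, hB, Finset.mem_filter]
    refine ⟨hcb, t, htb, ?_⟩
    have hle := hval c hcb t htb
    rw [← eval_toP] at hle ⊢
    have hsF : s ∈ F := by
      rw [hF, Set.Finite.mem_toFinset]
      refine ⟨hs, ?_⟩
      have hsz' : (size s : ℝ) ^ κ ≤ 2 * X := hsz.trans (by linarith)
      have h1 := Real.rpow_le_rpow (Real.rpow_nonneg (Nat.cast_nonneg _) _) hsz'
        (z := 1 / κ) (by positivity)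
      rwa [← Real.rpow_mul (Nat.cast_nonneg _), mul_one_div_cancel hκ.ne', Real.rpow_one] at h1
    rw [hG, Finset.mem_filter]
    refine ⟨?_, hle⟩
    rw [hG0, Finset.mem_union, Finset.mem_union]
    rcases hvl with h | h | h
    · exact Or.inl (Finset.mem_image.2 ⟨s, hsF, h.symm⟩)
    · exact Or.inr (Or.inl (Finset.mem_image.2 ⟨s, hsF, h.symm⟩))
    · exact Or.inr (Or.inr (Finset.mem_image.2 ⟨s, hsF, h.symm⟩))
  have hL : (0 : ℝ) ≤ (2 * (H : ℝ) + 1) ^ K.card := by positivity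
  rw [polys_ncard]
  push_cast
  calc ((BadI K 𝒯 κ θ H).ncard : ℝ) ≤ (B.card : ℝ) := by
        have h1 := Set.ncard_le_ncard hsub ((Finset.finite_toSet B).image _)
        rw [Set.ncard_image_of_injective _ (toP_injective K), Set.ncard_coe_finset] at h1
        exact_mod_cast h1
    _ ≤ C * G.card * ((tau : ℝ) + 1) * (H : ℝ) ^ (-ν₀ + η * r) * (2 * (H : ℝ) + 1) ^ K.card := hBc
    _ ≤ C * (CG * (H : ℝ) ^ (ν₀ / 8)) * (Ct * (H : ℝ) ^ (ν₀ / 8)) *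
        (H : ℝ) ^ (-ν₀ + ν₀ / 4) * (2 * (H : ℝ) + 1) ^ K.card := by
        apply mul_le_mul_of_nonneg_right _ hL
        apply mul_le_mul
        · apply mul_le_mul
          · exact mul_le_mul_of_nonneg_left hGb hC.le
          · exact htau1
          · positivity
          · positivity
        · exact Real.rpow_le_rpow_of_exponent_le hH1 (by linarith)
        · positivity
        · positivity
    _ = (C * CG * Ct) * ((H : ℝ) ^ (ν₀ / 8) * (H : ℝ) ^ (ν₀ / 8) * (H : ℝ) ^ (-ν₀ + ν₀ / 4)) *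
        (2 * (H : ℝ) + 1) ^ K.card := by ring
    _ ≤ (H : ℝ) ^ (ν₀ / 4) * ((H : ℝ) ^ (ν₀ / 8) * (H : ℝ) ^ (ν₀ / 8) *
        (H : ℝ) ^ (-ν₀ + ν₀ / 4)) * (2 * (H : ℝ) + 1) ^ K.card := by
        apply mul_le_mul_of_nonneg_right _ hL
        exact mul_le_mul_of_nonneg_right (hbig H hH) (by positivity)
    _ = (H : ℝ) ^ (-(ν₀ / 4)) * (2 * (H : ℝ) + 1) ^ K.card := by
        rw [← Real.rpow_add hHp, ← Real.rpow_add hHp, ← Real.rpow_add hHp]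
        congr 2
        ring

theorem bad2_main (d : ℕ) (h0 : 0 ∈ K) (hK : ∀ i, ∀ j ≤ d, Finsupp.single i j ∈ K) (θ : ℝ)
    (hθ : 0 ≤ θ) (hc : θ * r < 2 + 2 * d * min θ 1) :
    ∃ ε ν : ℝ, 0 < ε ∧ 0 < ν ∧ ∀ 𝒯 : Set (ℤ × ℤ × ℤ), Sparse 𝒯 ε → ∃ H₀ : ℕ, ∀ H : ℕ, H₀ ≤ H →
      ((Bad2 K 𝒯 θ H).ncard : ℝ) ≤ (H : ℝ) ^ (-ν) * ((Polys K H).ncard : ℝ) ^ 2 := by
  classical
  obtain ⟨ν, hν, C, hC, hsum⟩ := sum_wt r d 2 θ hθ (by norm_num) (by push_cast; linarith)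
  have hD : (0 : ℝ) ≤ θ * deg K := by positivity
  set ε : ℝ := ν / (2 * (1 + θ * deg K)) with hε
  refine ⟨ε, ν / 4, by positivity, by positivity, ?_⟩
  rintro 𝒯 ⟨CT, hCT, hT⟩
  obtain ⟨H₀, hH₀, hbig⟩ := eventually_le (CT * 2 ^ ε * (K.card : ℝ) ^ ε * C) (ν / 4) (by positivity)
  refine ⟨H₀, fun H hH => ?_⟩
  have hH2 : 2 ≤ H := hH₀.trans hH
  have hH1 : (1 : ℝ) ≤ H := by exact_mod_cast (by omega : 1 ≤ H)
  have hHp : (0 : ℝ) < H := by linarith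
  set X : ℝ := (K.card : ℝ) * (H * ((H : ℝ) ^ θ) ^ deg K) with hX
  have hX1 : 1 ≤ X := one_le_X K h0 H hH2 θ hθ
  obtain ⟨hfin, hcard⟩ := hT (2 * X) (by linarith)
  set F := hfin.toFinset with hF
  set G : Finset (ℤ × ℤ) := F.image (fun s => (s.1, s.2.1)) with hG
  have hFc : (F.card : ℝ) ≤ CT * (2 * X) ^ ε := by
    rw [hF, ← Set.ncard_eq_toFinset_card _ hfin]
    exact hcard
  have hGb : (G.card : ℝ) ≤ CT * 2 ^ ε * (K.card : ℝ) ^ ε * (H : ℝ) ^ (ν / 2) := by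
    have h1 : (2 * X) ^ ε = 2 ^ ε * ((K.card : ℝ) ^ ε * (H : ℝ) ^ (ν / 2)) := by
      rw [Real.mul_rpow (by norm_num) (by linarith), hX, val_pow K H hH2 θ ε (by positivity)]
      congr 3
      rw [hε]
      field_simp
    rw [h1] at hFc
    calc (G.card : ℝ) ≤ (F.card : ℝ) := by exact_mod_cast Finset.card_image_le
      _ ≤ CT * (2 ^ ε * ((K.card : ℝ) ^ ε * (H : ℝ) ^ (ν / 2))) := hFc
      _ = _ := by ring
  have hcount := bad2_count K d h0 hK H ⌊(H : ℝ) ^ θ⌋₊ (Bad2 K 𝒯 θ H) G (by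
    rintro P ⟨hP, hQ, t, ht, hs⟩
    refine ⟨hP, hQ, t, mem_of_le H θ t ht, ?_⟩
    have hle1 : |((eval t P.1 : ℤ) : ℝ)| ≤ X :=
      eval_bound K H ((H : ℝ) ^ θ) (Real.one_le_rpow hH1 hθ) t ht P.1 hP
    have hle2 : |((eval t P.2 : ℤ) : ℝ)| ≤ X :=
      eval_bound K H ((H : ℝ) ^ θ) (Real.one_le_rpow hH1 hθ) t ht P.2 hQ
    rw [hG, Finset.mem_image]
    refine ⟨(eval t P.1, eval t P.2, eval t P.1 + eval t P.2), ?_, rfl⟩
    rw [hF, Set.Finite.mem_toFinset]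
    refine ⟨hs, ?_⟩
    unfold size
    push_cast
    refine max_le ?_ (max_le ?_ ?_)
    · rw [Nat.cast_natAbs]; push_cast; linarith
    · rw [Nat.cast_natAbs]; push_cast; linarith
    · rw [Nat.cast_natAbs]; push_cast
      exact (abs_add_le _ _).trans (by linarith))
  have hs := hsum H hH2 ⌊(H : ℝ) ^ θ⌋₊ (Nat.floor_le (by positivity))
  have hL : (0 : ℝ) ≤ ((2 * (H : ℝ) + 1) ^ K.card) ^ 2 := by positivity
  rw [polys_ncard]
  push_cast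
  calc ((Bad2 K 𝒯 θ H).ncard : ℝ)
      ≤ (G.card : ℝ) * (((2 * (H : ℝ) + 1) ^ K.card) ^ 2 *
        ∑ t ∈ cbox (Fin r) ⌊(H : ℝ) ^ θ⌋₊, wt d H t ^ 2) := hcount
    _ ≤ (CT * 2 ^ ε * (K.card : ℝ) ^ ε * (H : ℝ) ^ (ν / 2)) * (((2 * (H : ℝ) + 1) ^ K.card) ^ 2 *
        (C * (H : ℝ) ^ (-ν))) := by
        apply mul_le_mul hGb (mul_le_mul_of_nonneg_left hs hL) _ (by positivity)
        exact mul_nonneg hL (Finset.sum_nonneg fun t _ => by positivity)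
    _ = (CT * 2 ^ ε * (K.card : ℝ) ^ ε * C) * ((H : ℝ) ^ (ν / 2) * (H : ℝ) ^ (-ν)) *
        ((2 * (H : ℝ) + 1) ^ K.card) ^ 2 := by ring
    _ ≤ (H : ℝ) ^ (ν / 4) * ((H : ℝ) ^ (ν / 2) * (H : ℝ) ^ (-ν)) *
        ((2 * (H : ℝ) + 1) ^ K.card) ^ 2 := by
        apply mul_le_mul_of_nonneg_right _ hL
        exact mul_le_mul_of_nonneg_right (hbig H hH) (by positivity)
    _ = (H : ℝ) ^ (-(ν / 4)) * ((2 * (H : ℝ) + 1) ^ K.card) ^ 2 := by
        rw [← Real.rpow_add hHp, ← Real.rpow_add hHp]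
        congr 2
        ring

theorem badI_finite (𝒯 : Set (ℤ × ℤ × ℤ)) (κ θ : ℝ) (H : ℕ) : (BadI K 𝒯 κ θ H).Finite :=
  (polys_finite K H).subset fun _ hP => hP.1

theorem bad1_le (𝒯 : Set (ℤ × ℤ × ℤ)) (κ θ : ℝ) (H : ℕ) :
    ((Bad1 K 𝒯 κ θ H).ncard : ℝ) ≤ ((BadI K 𝒯 κ θ H).ncard : ℝ) := by
  have h : Bad1 K 𝒯 κ θ H ⊆ BadI K 𝒯 κ θ H := by
    rintro P ⟨hP, t, ht, s, hs, hv, hsz⟩
    exact ⟨hP, t, ht, s, hs, hv, hsz.trans (by linarith [abs_nonneg (eval t P : ℝ)])⟩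
  exact_mod_cast Set.ncard_le_ncard h (badI_finite K 𝒯 κ θ H)

theorem bad2_le (𝒯 : Set (ℤ × ℤ × ℤ)) (θ : ℝ) (H : ℕ) :
    ((Bad2 K 𝒯 θ H).ncard : ℝ) ≤
      2 * (((BadI K 𝒯 1 θ H).ncard : ℝ) * ((Polys K H).ncard : ℝ)) := by
  have h : Bad2 K 𝒯 θ H ⊆ (BadI K 𝒯 1 θ H ×ˢ Polys K H) ∪ (Polys K H ×ˢ BadI K 𝒯 1 θ H) := by
    rintro P ⟨hP, hQ, t, ht, hs⟩
    have hsz : (size (eval t P.1, eval t P.2, eval t P.1 + eval t P.2) : ℝ) ≤
        2 * max |(eval t P.1 : ℝ)| |(eval t P.2 : ℝ)| := by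
      unfold size
      push_cast
      have h1 : |(eval t P.1 : ℝ)| ≤ max |(eval t P.1 : ℝ)| |(eval t P.2 : ℝ)| := le_max_left _ _
      have h2 : |(eval t P.2 : ℝ)| ≤ max |(eval t P.1 : ℝ)| |(eval t P.2 : ℝ)| := le_max_right _ _
      have h3 := abs_nonneg (eval t P.1 : ℝ)
      refine max_le ?_ (max_le ?_ ?_)
      · rw [Nat.cast_natAbs]; push_cast; linarith
      · rw [Nat.cast_natAbs]; push_cast; linarith
      · rw [Nat.cast_natAbs]; push_cast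
        exact (abs_add_le _ _).trans (by linarith)
    rcases le_total |(eval t P.1 : ℝ)| |(eval t P.2 : ℝ)| with h4 | h4
    · rw [max_eq_right h4] at hsz
      exact Or.inr ⟨hP, hQ, t, ht, _, hs, Or.inr (Or.inl rfl), by rw [Real.rpow_one]; exact hsz⟩
    · rw [max_eq_left h4] at hsz
      exact Or.inl ⟨⟨hP, t, ht, _, hs, Or.inl rfl, by rw [Real.rpow_one]; exact hsz⟩, hQ⟩
  have hfin := ((badI_finite K 𝒯 1 θ H).prod (polys_finite K H)).union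
    ((polys_finite K H).prod (badI_finite K 𝒯 1 θ H))
  have h1 := (Set.ncard_le_ncard h hfin).trans (Set.ncard_union_le _ _)
  rw [Set.ncard_prod, Set.ncard_prod] at h1
  have h2 : ((Bad2 K 𝒯 θ H).ncard : ℝ) ≤ (((BadI K 𝒯 1 θ H).ncard * (Polys K H).ncard +
      (Polys K H).ncard * (BadI K 𝒯 1 θ H).ncard : ℕ) : ℝ) := by exact_mod_cast h1
  refine h2.trans (le_of_eq ?_)
  push_cast
  ring

theorem bad2_main' (d : ℕ) (h0 : 0 ∈ K) (hK : ∀ i, ∀ j ≤ d, Finsupp.single i j ∈ K) (θ : ℝ)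
    (hθ : 0 ≤ θ) (hc : θ * r < 2 + 2 * d * min θ 1 ∨
      (1 ≤ d ∧ θ * ((r : ℝ) - 1) < 1 + ((d : ℝ) - 1) * min θ 1)) :
    ∃ ε ν : ℝ, 0 < ε ∧ 0 < ν ∧ ∀ 𝒯 : Set (ℤ × ℤ × ℤ), Sparse 𝒯 ε → ∃ H₀ : ℕ, ∀ H : ℕ, H₀ ≤ H →
      ((Bad2 K 𝒯 θ H).ncard : ℝ) ≤ (H : ℝ) ^ (-ν) * ((Polys K H).ncard : ℝ) ^ 2 := by
  rcases hc with hc | ⟨hd, hc⟩
  · exact bad2_main K d h0 hK θ hθ hc
  · obtain ⟨ε, ν, hε, hν, h⟩ := bad1_main K d hd h0 hK θ 1 hθ one_pos hc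
    refine ⟨ε, ν / 2, hε, by positivity, fun 𝒯 hT => ?_⟩
    obtain ⟨H₀, hH₀⟩ := h 𝒯 hT
    obtain ⟨H₁, hH₁, hbig⟩ := eventually_le 2 (ν / 2) (by positivity)
    refine ⟨max H₀ H₁, fun H hH => ?_⟩
    have h1 := hH₀ H ((le_max_left _ _).trans hH)
    have h2 := hbig H ((le_max_right _ _).trans hH)
    have hH2 : 2 ≤ H := hH₁.trans ((le_max_right _ _).trans hH)
    have hHp : (0 : ℝ) < H := by exact_mod_cast (by omega : 0 < H)
    have hP0 : (0 : ℝ) ≤ ((Polys K H).ncard : ℝ) := Nat.cast_nonneg _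
    calc ((Bad2 K 𝒯 θ H).ncard : ℝ)
        ≤ 2 * (((BadI K 𝒯 1 θ H).ncard : ℝ) * ((Polys K H).ncard : ℝ)) := bad2_le K 𝒯 θ H
      _ ≤ (H : ℝ) ^ (ν / 2) * (((H : ℝ) ^ (-ν) * ((Polys K H).ncard : ℝ)) *
          ((Polys K H).ncard : ℝ)) := by
          apply mul_le_mul h2 (mul_le_mul_of_nonneg_right h1 hP0) (by positivity) (by positivity)
      _ = ((H : ℝ) ^ (ν / 2) * (H : ℝ) ^ (-ν)) * ((Polys K H).ncard : ℝ) ^ 2 := by ring
      _ = (H : ℝ) ^ (-(ν / 2)) * ((Polys K H).ncard : ℝ) ^ 2 := by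
          rw [← Real.rpow_add hHp]
          congr 2
          ring

end Poly

theorem exists_sparse (ε : ℝ) (hε : 0 < ε) : ∃ (E : ℕ) (δ : ℝ), 0 < δ ∧ Sparse (Terms δ) ε ∧
    ∀ S : Finset ℕ, Sparse (STerms S E) ε := by
  obtain ⟨δ, hδ, C, hC⟩ := count ε hε
  refine ⟨⌈1 / δ⌉₊, δ, hδ, ⟨max C 1, lt_max_of_lt_right one_pos, fun X hX => ?_⟩, fun S => ?_⟩
  · obtain ⟨h1, h2⟩ := hC X hX
    exact ⟨h1, h2.trans (mul_le_mul_of_nonneg_right (le_max_left _ _)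
      (Real.rpow_nonneg (by linarith) _))⟩
  · obtain ⟨N, hN⟩ := sterms_sub S ⌈1 / δ⌉₊ δ hδ (Nat.le_ceil _)
    refine ⟨max C 1 + ({t : ℤ × ℤ × ℤ | size t ≤ N}.ncard : ℝ), by
      have : (0 : ℝ) ≤ ({t : ℤ × ℤ × ℤ | size t ≤ N}.ncard : ℝ) := Nat.cast_nonneg _
      have : (0 : ℝ) < max C 1 := lt_max_of_lt_right one_pos
      linarith, fun X hX => ?_⟩
    obtain ⟨h1, h2⟩ := hC X hX
    have hsub : {t | t ∈ STerms S ⌈1 / δ⌉₊ ∧ (size t : ℝ) ≤ X} ⊆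
        {t | t ∈ Terms δ ∧ (size t : ℝ) ≤ X} ∪ {t : ℤ × ℤ × ℤ | size t ≤ N} := by
      rintro t ⟨h3, h4⟩
      rcases hN h3 with h5 | h5
      · exact Or.inl ⟨h5, h4⟩
      · exact Or.inr h5
    have hfin := h1.union (ball_finite N)
    refine ⟨hfin.subset hsub, ?_⟩
    have hXε : 1 ≤ X ^ ε := Real.one_le_rpow hX hε.le
    have hn0 : (0 : ℝ) ≤ ({t : ℤ × ℤ × ℤ | size t ≤ N}.ncard : ℝ) := Nat.cast_nonneg _
    have h6 : ({t | t ∈ STerms S ⌈1 / δ⌉₊ ∧ (size t : ℝ) ≤ X}.ncard : ℝ) ≤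
        ({t | t ∈ Terms δ ∧ (size t : ℝ) ≤ X}.ncard : ℝ) +
          ({t : ℤ × ℤ × ℤ | size t ≤ N}.ncard : ℝ) := by
      exact_mod_cast (Set.ncard_le_ncard hsub hfin).trans (Set.ncard_union_le _ _)
    have h7 : C * X ^ ε ≤ max C 1 * X ^ ε :=
      mul_le_mul_of_nonneg_right (le_max_left _ _) (by linarith)
    nlinarith

/-- **Theorem.** Let `K` be a finite set of monomials in `r` variables which contains the powers `x_i ^ j`, `j ≤ d`, of all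
variables, and `θ ≥ 0`. (1) If `d ≥ 1`, `θ (r - 1) < 1 + (d - 1) min (θ, 1)` and `κ > 0`, there are `E`, `δ > 0`, `ν > 0` such that for every finite
set `S` of primes and all large `H` at most a proportion `H ^ (-ν)` of the polynomials with monomials in `K` and integer
coefficients of absolute value at most `H` have a value `P(t)`, `|t i| ≤ H ^ θ`, which is a term of an `S`-solution with an
exponent at least `E` and whose absolute value is at least the `κ`-th power of the largest term; and the same for the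
solutions whose coefficients have radicals at most `h ^ δ` and with a base at most `h ^ δ`, `h` the largest term. (2) If
`θ r < 2 + 2 d min (θ, 1)` or the conditions of (1) for `d` and `θ` are satisfied (so for all `θ` if `r = 1`, `d ≥ 1`), the
same for pairs of polynomials such that `P(t)`, `Q(t)`, `P(t) + Q(t)` are the terms of such a
solution for some `t`, `|t i| ≤ H ^ θ`. -/
theorem result (r d : ℕ) (K : Finset (Fin r →₀ ℕ)) (h0 : 0 ∈ K)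
    (hK : ∀ i, ∀ j ≤ d, Finsupp.single i j ∈ K) (θ : ℝ) (hθ : 0 ≤ θ) :
    (∀ H : ℕ, (Polys K H).Finite) ∧
    (1 ≤ d → θ * ((r : ℝ) - 1) < 1 + ((d : ℝ) - 1) * min θ 1 → ∀ κ : ℝ, 0 < κ →
      ∃ (E : ℕ) (δ ν : ℝ), 0 < δ ∧ 0 < ν ∧
      (∀ S : Finset ℕ, ∃ H₀ : ℕ, ∀ H : ℕ, H₀ ≤ H →
        ((Bad1 K (STerms S E) κ θ H).ncard : ℝ) ≤ (H : ℝ) ^ (-ν) * ((Polys K H).ncard : ℝ)) ∧
      ∃ H₀ : ℕ, ∀ H : ℕ, H₀ ≤ H →
        ((Bad1 K (Terms δ) κ θ H).ncard : ℝ) ≤ (H : ℝ) ^ (-ν) * ((Polys K H).ncard : ℝ)) ∧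
    (θ * r < 2 + 2 * d * min θ 1 ∨ (1 ≤ d ∧ θ * ((r : ℝ) - 1) < 1 + ((d : ℝ) - 1) * min θ 1) →
      ∃ (E : ℕ) (δ ν : ℝ), 0 < δ ∧ 0 < ν ∧
      (∀ S : Finset ℕ, ∃ H₀ : ℕ, ∀ H : ℕ, H₀ ≤ H →
        ((Bad2 K (STerms S E) θ H).ncard : ℝ) ≤ (H : ℝ) ^ (-ν) * ((Polys K H).ncard : ℝ) ^ 2) ∧
      ∃ H₀ : ℕ, ∀ H : ℕ, H₀ ≤ H →
        ((Bad2 K (Terms δ) θ H).ncard : ℝ) ≤ (H : ℝ) ^ (-ν) * ((Polys K H).ncard : ℝ) ^ 2) := by
  refine ⟨fun H => polys_finite K H, fun hd hc κ hκ => ?_, fun hc => ?_⟩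
  · obtain ⟨ε, ν, hε, hν, h⟩ := bad1_main K d hd h0 hK θ κ hθ hκ hc
    obtain ⟨E, δ, hδ, h1, h2⟩ := exists_sparse ε hε
    refine ⟨E, δ, ν, hδ, hν, fun S => ?_, ?_⟩
    · obtain ⟨H₀, h3⟩ := h _ (h2 S)
      exact ⟨H₀, fun H hH => (bad1_le K _ κ θ H).trans (h3 H hH)⟩
    · obtain ⟨H₀, h3⟩ := h _ h1
      exact ⟨H₀, fun H hH => (bad1_le K _ κ θ H).trans (h3 H hH)⟩
  · obtain ⟨ε, ν, hε, hν, h⟩ := bad2_main' K d h0 hK θ hθ hc
    obtain ⟨E, δ, hδ, h1, h2⟩ := exists_sparse ε hε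
    exact ⟨E, δ, ν, hδ, hν, fun S => h _ (h2 S), h _ h1⟩

end Pool.Agent.Results.MP_be1fae_nt.RandomPolynomials
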