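import Pool.Agent.T6.H35.FE.Fam
import Pool.Agent.T6.H35.GF.Cls

set_option autoImplicit false

/-!
# Generalised Fermat equations with S-unit coefficients: families given by rational series

`Sol S A B`: the integers `A`, `B`, `A + B` are nonzero, `A` and `B` are coprime, and there are
exponents `p, q, r` with `1 / p + 1 / q + 1 / r < 1` such that `A` is `p`-full, `B` is `q`-full and
`A + B` is `r`-full outside of `S`.  This holds in particular for the terms `A = a x ^ p`,
`B = b y ^ q`, `A + B = c z ^ r` of all `S`-solutions of `a x ^ p + b y ^ q = c z ^ r` (last part of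
the theorem); the exponents are arbitrary and may be different for different pairs `(A, B)`.

Let `Γ` be a monoid, `ρ : Γ → M_r(ℚ)` a representation, `M` a matrix with two rows, `x` a vector.  The
terms `(A, B) = M ρ(z) x` are, for a free monoid `Γ`, rational series (weighted automata).

(1) Suppose that all eigenvalues of all the matrices `ρ(z)` are zero or roots of unity (for rational
series: polynomial growth), and let `𝓛` be a rational subset of `Γ`.  There is a finite subset `𝓕` of
`𝓛`, which depends only on `𝓛` and `ρ`, such that for EVERY finite set `S` of primes and all `M` and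
`x`: if all the pairs `M ρ(z) x`, `z ∈ 𝓛`, are terms of `S`-solutions (with exponents which depend on
`z`), then there are only finitely many of them, and all are given by `z ∈ 𝓕`.  So the number of the
`S`-solutions in such a family is bounded independently of `S`, `M`, `x` and the exponents.  If `Γ` is
free on a finite alphabet and `𝓛` a regular language, then for each pair the words of `𝓛` which give it
form a regular language, with a bounded number of left quotients.

(2) Suppose that `Γ` is generated by elements which act by unipotent matrices (this is possible with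
exponential growth, for instance `Γ = SL_n(ℤ)` and `(A, B)` any two regular functions).  If all the
pairs `M ρ(z) x`, `z ∈ Γ`, are terms of `S`-solutions, then they are all equal.

The idea: along the powers of a unipotent matrix the terms are polynomials; by a local argument at
three auxiliary primes there is ONE argument for which the multiplicities of all irreducible factors
of the three polynomials are at least the exponents `p`, `q`, `r` of this argument, and Mason's theorem
shows that the polynomials are constant.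
-/

namespace Pool.Agent.Results.MP_be1fae_nt.TermsInRationalSeries

open Pool.Agent.T6.H35.FE Pool.Agent.T6.H35.GF
open Pool.Agent.T6.H35.RS (IsRational)

theorem result :
    -- (1)
    (∀ (Γ : Type) [Monoid Γ] (𝓛 : Set Γ), IsRational 𝓛 → ∀ (r : ℕ)
      (ρ : Γ →* Matrix (Fin r) (Fin r) ℚ), (∀ z, Cycl ℚ r (ρ z)) →
      ∃ 𝓕 ⊆ 𝓛, 𝓕.Finite ∧ ∀ S : Set ℕ, S.Finite →
        ∀ (M : Matrix (Fin 2) (Fin r) ℚ) (x : Fin r → ℚ),
          (∀ z ∈ 𝓛, OnSol S (pt M ρ x z)) → pt M ρ x '' 𝓛 = pt M ρ x '' 𝓕) ∧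
    (∀ (A : Type) [Finite A] (𝓛 : Language A), 𝓛.IsRegular → ∀ (r : ℕ)
      (ρ : A → Matrix (Fin r) (Fin r) ℚ), (∀ l : List A, Cycl ℚ r (l.map ρ).prod) →
      ∃ N₀ : ℕ, ∀ S : Set ℕ, S.Finite → ∀ (M : Matrix (Fin 2) (Fin r) ℚ) (x : Fin r → ℚ),
        (∀ l ∈ 𝓛, OnSol S (wvec M ρ x l)) → ∀ Q : Fin 2 → ℚ,
          Language.IsRegular {l | l ∈ 𝓛 ∧ wvec M ρ x l = Q} ∧
          (Set.range (Language.leftQuotient {l | l ∈ 𝓛 ∧ wvec M ρ x l = Q})).encard ≤
            (N₀ : ℕ∞)) ∧
    -- (2)
    (∀ S : Set ℕ, S.Finite → ∀ (Γ : Type) [Monoid Γ] (r : ℕ)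
      (ρ : Γ →* Matrix (Fin r) (Fin r) ℚ) (T : Set Γ), Submonoid.closure T = ⊤ →
      (∀ u ∈ T, (ρ u - 1) ^ r = 0) → ∀ (M : Matrix (Fin 2) (Fin r) ℚ) (x : Fin r → ℚ),
        (∀ z, OnSol S (pt M ρ x z)) → ∀ z, pt M ρ x z = M.mulVec x) ∧
    -- the terms of `S`-solutions
    (∀ (S : Set ℕ) (a b c x y z : ℤ) (p q r : ℕ), 0 < p → 0 < q → 0 < r →
      (1 : ℚ) / p + 1 / q + 1 / r < 1 → (∀ ℓ : ℕ, ℓ.Prime → (ℓ : ℤ) ∣ a * b * c → ℓ ∈ S) →
      a ≠ 0 → b ≠ 0 → c ≠ 0 → x ≠ 0 → y ≠ 0 → z ≠ 0 →
      Int.gcd ((Int.gcd (a * x ^ p) (b * y ^ q) : ℕ) : ℤ) (c * z ^ r) = 1 →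
      a * x ^ p + b * y ^ q = c * z ^ r → OnSol S ![((a * x ^ p : ℤ) : ℚ), ((b * y ^ q : ℤ) : ℚ)]) := by
  refine ⟨?_, ?_, ?_, ?_⟩
  · intro Γ _ 𝓛 h𝓛 r ρ hρ
    obtain ⟨𝓕, h1, h2, h3⟩ := FinRep.rational cyc_cycl ρ hρ h𝓛
    refine ⟨𝓕, h1, h2, ?_⟩
    intro S hS M x hX
    apply Set.Subset.antisymm
    · rintro _ ⟨z, hz, rfl⟩
      obtain ⟨z', hz', h4⟩ := h3 z hz 2 _ _ (tst_sol hS) Unit (fun _ => M) (fun _ => x)
        (fun _ z hz => hX z hz)
      exact ⟨z', hz', (h4 ()).symm⟩
    · exact Set.image_mono h1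
  · intro A _ 𝓛 h𝓛 r ρ hρ
    obtain ⟨N₀, h⟩ := classes_gen (K := ℚ) cyc_cycl h𝓛 ρ hρ
    refine ⟨N₀, ?_⟩
    intro S hS M x hX Q
    exact h 2 _ _ (tst_sol hS) M x hX (fun a => a = Q) (fun a b hab => by rw [hab])
  · intro S hS Γ _ r ρ T hT hu M x hon z
    exact gen_unip hS ρ T hT hu M x hon z
  · intro S a b c x y z p q r hp hq hr hpqr hS ha hb hc hx hy hz hgcd h
    exact ⟨_, _, rfl, rfl, sol_of_terms hp hq hr hpqr hS ha hb hc hx hy hz hgcd h⟩

end Pool.Agent.Results.MP_be1fae_nt.TermsInRationalSeries
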